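import Mathlib
import Pool.Agent.Results.MP_f2c8fe_an.RiviereFalse

set_option autoImplicit false

/-!
# A vector-valued refinement of the discrete weak type estimate

The scale operators `T_j` (flat trigonometric kernels on blocks of length `2 K_j`, normalised by
`K_j^(-1/p)`) of the file `RiviereFalse` satisfy, for ARBITRARY functions `G_j` on the integers,
`#{|∑_j T_j G_j| > 1} ≤ C ∑_j ∑_x K_j min(1, (|G_j x|^p / K_j)^(1+ε))`, `ε = (2/p-1)/2`.
-/

open Finset Complex MeasureTheory
open scoped ComplexInnerProductSpace ENNReal NNReal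

namespace Pool.Agent.Y858.RV

open Pool.Agent.Results.MP_f2c8fe_an.RiviereFalse

/-- the exponent gain -/
noncomputable def ep (p : ℝ) : ℝ := (2 / p - 1) / 2

lemma ep_pos {p : ℝ} (hp : 0 < p) (hp2 : p < 2) : 0 < ep p := by
  have : 1 < 2 / p := by rw [lt_div_iff₀ hp]; linarith
  unfold ep; linarith

lemma ep_lt {p : ℝ} (hp : 1 < p) : ep p < 1 / 2 := by
  have : 2 / p < 2 := by rw [div_lt_iff₀ (by linarith)]; linarith
  unfold ep; linarith

lemma rho_eq (p : ℝ) (m : ℕ) : ((4 : ℝ) ^ m) ^ (-(ep p)) = rho p ^ m := by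
  unfold rho ep
  rw [← Real.rpow_natCast, ← Real.rpow_natCast, ← Real.rpow_mul (by norm_num),
    ← Real.rpow_mul (by norm_num), show (4 : ℝ) = 2 ^ (2 : ℝ) by norm_num,
    ← Real.rpow_mul (by norm_num)]
  congr 1
  ring

lemma rho_ge {p : ℝ} (hp : 1 < p) : 1 / 2 ≤ rho p := by
  have h := ep_lt hp
  have : rho p = 2 ^ (-(2 * ep p)) := by unfold rho ep; congr 1; ring
  rw [this]
  calc (1 : ℝ) / 2 = 2 ^ (-1 : ℝ) := by rw [Real.rpow_neg_one]; norm_num
    _ ≤ 2 ^ (-(2 * ep p)) := Real.rpow_le_rpow_of_exponent_le (by norm_num) (by linarith)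

/-- the weight of a point at the scale `j` -/
noncomputable def mu (p : ℝ) (g : ℤ → ℂ) (j : ℕ) (x : ℤ) : ℝ :=
  wt p g x * (wt p g x / KK j) ^ (ep p)

lemma mu_nonneg (p : ℝ) (g : ℤ → ℂ) (j : ℕ) (x : ℤ) : 0 ≤ mu p g j x := by
  unfold mu
  have := wt_nonneg p g x
  have := KK_pos j
  positivity

open Classical in
/-- weighted count -/
noncomputable def ms (w : ℤ → ℝ) (S : Finset ℤ) (P : ℤ → Prop) : ℝ :=
  ∑ x ∈ S, if P x then w x else 0

lemma ms_eq (w : ℤ → ℝ) (S : Finset ℤ) (P : ℤ → Prop) [DecidablePred P] :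
    ms w S P = ∑ x ∈ S, if P x then w x else 0 := by
  unfold ms
  refine Finset.sum_congr rfl fun x _ => ?_
  congr

lemma ms_nonneg {w : ℤ → ℝ} (hw : ∀ x, 0 ≤ w x) (S : Finset ℤ) (P : ℤ → Prop) : 0 ≤ ms w S P := by
  unfold ms
  refine Finset.sum_nonneg fun x _ => ?_
  split_ifs
  · exact hw x
  · exact le_rfl

lemma ms_mono {w : ℤ → ℝ} (hw : ∀ x, 0 ≤ w x) (S : Finset ℤ) {P Q : ℤ → Prop}
    (h : ∀ x, P x → Q x) : ms w S P ≤ ms w S Q := by
  unfold ms
  refine Finset.sum_le_sum fun x _ => ?_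
  by_cases hP : P x
  · rw [if_pos hP, if_pos (h x hP)]
  · rw [if_neg hP]
    split_ifs
    · exact hw x
    · exact le_rfl

/-- the weight of a window -/
noncomputable def Sw (p : ℝ) (S : Finset ℤ) (g : ℤ → ℂ) (j : ℕ) (r : ℤ) : ℝ :=
  ms (mu p g j) S (fun x => core p g j x ∧ x / (WW j : ℤ) = r)

/-- good points -/
def gd (p : ℝ) (S : Finset ℤ) (g : ℤ → ℂ) (j : ℕ) (x : ℤ) : Prop :=
  Sw p S g j (x / (WW j : ℤ)) ≤ WW j

/-- good points of the level `m` -/
def Pg (p : ℝ) (S : Finset ℤ) (g : ℤ → ℂ) (m j : ℕ) (x : ℤ) : Prop :=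
  lvl p g m j x ∧ gd p S g j x

lemma window' (p : ℝ) (S : Finset ℤ) (g : ℤ → ℂ) (j : ℕ) (α : ℤ) (L : ℕ) :
    ms (mu p g j) S (fun x => (core p g j x ∧ gd p S g j x) ∧ (α ≤ x ∧ x < α + L))
      ≤ L + 2 * WW j := by
  classical
  have hmu := mu_nonneg p g j
  have hW : (0 : ℤ) < WW j := by exact_mod_cast WW_pos j
  set R := Finset.Icc (α / (WW j : ℤ)) ((α + L) / (WW j : ℤ)) with hR
  have h1 : ms (mu p g j) S (fun x => (core p g j x ∧ gd p S g j x) ∧ (α ≤ x ∧ x < α + L))
      ≤ ∑ r ∈ R, ms (mu p g j) S (fun x => (core p g j x ∧ gd p S g j x) ∧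
        x / (WW j : ℤ) = r) := by
    simp_rw [ms_eq (mu p g j) S]
    rw [Finset.sum_comm]
    refine Finset.sum_le_sum fun x _ => ?_
    by_cases hx : (core p g j x ∧ gd p S g j x) ∧ (α ≤ x ∧ x < α + L)
    · rw [if_pos hx]
      have hmem : x / (WW j : ℤ) ∈ R := by
        rw [hR, Finset.mem_Icc]
        exact ⟨Int.ediv_le_ediv hW hx.2.1, Int.ediv_le_ediv hW hx.2.2.le⟩
      have := Finset.single_le_sum (f := fun r => if (core p g j x ∧ gd p S g j x) ∧
        x / (WW j : ℤ) = r then mu p g j x else 0) (fun r _ => by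
          split_ifs
          · exact hmu _
          · exact le_rfl) hmem
      refine le_trans (le_of_eq ?_) this
      simp only [and_true]
      rw [if_pos hx.1]
    · rw [if_neg hx]
      refine Finset.sum_nonneg fun r _ => ?_
      split_ifs
      · exact hmu _
      · exact le_rfl
  have h2 : ∀ r ∈ R, ms (mu p g j) S (fun x => (core p g j x ∧ gd p S g j x) ∧
      x / (WW j : ℤ) = r) ≤ WW j := by
    intro r _
    by_cases hex : ∃ x, (core p g j x ∧ gd p S g j x) ∧ x / (WW j : ℤ) = r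
    · obtain ⟨x, hx1, hx2⟩ := hex
      have h3 : Sw p S g j r ≤ WW j := by
        have := hx1.2
        unfold gd at this
        rwa [hx2] at this
      refine le_trans ?_ h3
      unfold Sw
      exact ms_mono hmu S (fun y hy => ⟨hy.1.1, hy.2⟩)
    · have : ms (mu p g j) S (fun x => (core p g j x ∧ gd p S g j x) ∧
          x / (WW j : ℤ) = r) = 0 := by
        unfold ms
        refine Finset.sum_eq_zero fun x _ => ?_
        rw [if_neg]
        intro hx
        exact hex ⟨x, hx⟩
      rw [this]; positivity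
  refine h1.trans ((Finset.sum_le_sum h2).trans ?_)
  rw [Finset.sum_const, nsmul_eq_mul]
  have h3 : ((R.card : ℕ) : ℤ) * WW j ≤ L + 2 * WW j := by
    rw [hR, Int.card_Icc]
    have e1 := Int.mul_ediv_add_emod (α + L) (WW j : ℤ)
    have e2 := Int.mul_ediv_add_emod α (WW j : ℤ)
    have e3 := Int.emod_nonneg (α + L) hW.ne'
    have e4 := Int.emod_lt_of_pos α hW
    have e5 : α / (WW j : ℤ) ≤ (α + L) / (WW j : ℤ) := Int.ediv_le_ediv hW (by omega)
    rw [Int.toNat_of_nonneg (by omega)]
    nlinarith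
  exact_mod_cast h3

/-- comparison of the two weights on a level -/
lemma wt_le_mu {p : ℝ} (hp : 1 < p) (hp2 : p < 2) {g : ℤ → ℂ} {m j : ℕ} {x : ℤ}
    (h : KK j / 4 ^ (m + 1) ≤ wt p g x) : rho p ^ (m + 1) * wt p g x ≤ mu p g j x := by
  have hp0 : 0 < p := by linarith
  have hK := KK_pos j
  have hw := wt_nonneg p g x
  have he := ep_pos hp0 hp2
  unfold mu
  rw [mul_comm]
  refine mul_le_mul_of_nonneg_left ?_ hw
  rw [← rho_eq]
  have h4 : (0 : ℝ) < 4 ^ (m + 1) := by positivity
  rw [Real.rpow_neg h4.le, ← Real.inv_rpow h4.le]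
  refine Real.rpow_le_rpow (by positivity) ?_ he.le
  rw [le_div_iff₀ hK]
  refine le_trans (le_of_eq ?_) h
  rw [div_eq_mul_inv]; ring

/-- cross terms at one level -/
lemma cross' {p : ℝ} (hp : 1 < p) (hp2 : p < 2) (S : Finset ℤ) (g h : ℤ → ℂ) {m i j : ℕ}
    (hmi : m < i) (hij : i < j) :
    ‖⟪TT p i (vec S g (Pg p S g m i)), TT p j (vec S h (Pg p S h m j))⟫‖
      ≤ (1 / 4 * (1 / 2) ^ i) * ((rho p ^ m) ^ 2 * mass p S h (Pg p S h m j)) := by
  classical
  have hp0 : 0 < p := by linarith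
  have hr0 := rho_pos p
  have hr2 := rho_ge hp
  have hKi := KK_pos i
  have hKj := KK_pos j
  have hNi : (0 : ℝ) < NN i := by exact_mod_cast NN_pos i
  have h4 : (0 : ℝ) < 4 ^ (m + 1) := by positivity
  set c : ℝ := KK i ^ (-(1 / p)) * KK j ^ (-(1 / p)) * (2 * NN i) with hc
  have hc0 : 0 ≤ c := by positivity
  set Bi : ℝ := (KK i / 4 ^ (m + 1)) ^ (1 / p - 1) with hBi
  set Bj : ℝ := (KK j / 4 ^ (m + 1)) ^ (1 / p - 1) with hBj
  have hBi0 : 0 ≤ Bi := by positivity
  have hBj0 : 0 ≤ Bj := by positivity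
  -- expand
  have hexp : ⟪TT p i (vec S g (Pg p S g m i)), TT p j (vec S h (Pg p S h m j))⟫
      = ∑ y ∈ S, ∑ x ∈ S, (starRingEnd ℂ) (if Pg p S g m i x then g x else 0) *
        (if Pg p S h m j y then h y else 0) * ⟪TT p i (ee x), TT p j (ee y)⟫ := by
    unfold vec
    rw [TT_sum, TT_sum, inner_sum]
    refine Finset.sum_congr rfl fun y _ => ?_
    rw [sum_inner]
    refine Finset.sum_congr rfl fun x _ => ?_
    rw [inner_smul_left, inner_smul_right]
    ring
  rw [hexp]
  -- bound for each y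
  have hy : ∀ y ∈ S, ‖∑ x ∈ S, (starRingEnd ℂ) (if Pg p S g m i x then g x else 0) *
        (if Pg p S h m j y then h y else 0) * ⟪TT p i (ee x), TT p j (ee y)⟫‖
      ≤ (if Pg p S h m j y then wt p h y else 0) * (2 ^ i * (c * Bi * Bj * (2 * WW j))) := by
    intro y _
    by_cases hPy : Pg p S h m j y
    · rw [if_pos hPy, if_pos hPy]
      set α : ℤ := y + WW j - WW i - WW i with hα
      have hx : ∀ x ∈ S, ‖(starRingEnd ℂ) (if Pg p S g m i x then g x else 0) * h y *
          ⟪TT p i (ee x), TT p j (ee y)⟫‖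
          ≤ (if (core p g i x ∧ gd p S g i x) ∧ (α ≤ x ∧ x < α + (WW i + WW j : ℕ))
            then mu p g i x else 0) * (2 ^ i * (c * Bi * ‖h y‖)) := by
        intro x _
        by_cases hPx : Pg p S g m i x
        · rw [if_pos hPx]
          by_cases hxα : α ≤ x ∧ x < α + (WW i + WW j : ℕ)
          · rw [if_pos ⟨⟨lvl_core hmi hPx.1, hPx.2⟩, hxα⟩]
            rw [norm_mul, norm_mul, RCLike.norm_conj]
            have e1 := norm_le_L1 hp g x (by positivity) hPx.1.1
            have e2 := TT_inner_ee hij p x y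
            have e3 := wt_le_mu hp hp2 hPx.1.1
            have e4 : wt p g x ≤ 2 ^ i * mu p g i x := by
              have hw := wt_nonneg p g x
              have e5 : (1 / 2 : ℝ) ^ i ≤ rho p ^ (m + 1) :=
                calc (1 / 2 : ℝ) ^ i ≤ (1 / 2) ^ (m + 1) :=
                      pow_le_pow_of_le_one (by norm_num) (by norm_num) (by omega)
                  _ ≤ _ := pow_le_pow_left₀ (by norm_num) hr2 _
              have e6 : (1 / 2 : ℝ) ^ i * wt p g x ≤ mu p g i x :=
                (mul_le_mul_of_nonneg_right e5 hw).trans e3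
              have e7 : (2 : ℝ) ^ i * ((1 / 2 : ℝ) ^ i * wt p g x) = wt p g x := by
                rw [← mul_assoc, ← mul_pow]; norm_num
              rw [← e7]
              exact mul_le_mul_of_nonneg_left e6 (by positivity)
            calc ‖g x‖ * ‖h y‖ * ‖⟪TT p i (ee x), TT p j (ee y)⟫‖
                ≤ (Bi * (2 ^ i * mu p g i x)) * ‖h y‖ * c := by
                  refine mul_le_mul (mul_le_mul_of_nonneg_right
                    (e1.trans (mul_le_mul_of_nonneg_left e4 hBi0)) (norm_nonneg _)) e2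
                    (norm_nonneg _) ?_
                  have := mu_nonneg p g i x
                  positivity
              _ = _ := by ring
          · have : ⟪TT p i (ee x), TT p j (ee y)⟫ = 0 := by
              apply TT_inner_zero
              rw [not_and_or, not_le, not_lt] at hxα
              exact hxα
            rw [this, mul_zero, norm_zero, if_neg (fun h => hxα h.2), zero_mul]
        · rw [if_neg hPx]
          simp only [map_zero, zero_mul, norm_zero]
          refine mul_nonneg ?_ (by positivity)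
          split_ifs
          · exact mu_nonneg _ _ _ _
          · exact le_rfl
      have hwin := window' p S g i α (WW i + WW j)
      have hWg := WW_growth hij
      have e1 := norm_le_L1 hp h y (by positivity) hPy.1.1
      calc _ ≤ ∑ x ∈ S, (if (core p g i x ∧ gd p S g i x) ∧ (α ≤ x ∧ x < α + (WW i + WW j : ℕ))
            then mu p g i x else 0) * (2 ^ i * (c * Bi * ‖h y‖)) :=
            (norm_sum_le _ _).trans (Finset.sum_le_sum hx)
        _ = ms (mu p g i) S (fun x => (core p g i x ∧ gd p S g i x) ∧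
              (α ≤ x ∧ x < α + (WW i + WW j : ℕ))) * (2 ^ i * (c * Bi * ‖h y‖)) := by
            rw [← Finset.sum_mul, ms_eq]
        _ ≤ (2 * WW j) * (2 ^ i * (c * Bi * (Bj * wt p h y))) := by
            refine mul_le_mul ?_ ?_ (by positivity) (by positivity)
            · refine hwin.trans ?_
              push_cast
              linarith
            · refine mul_le_mul_of_nonneg_left ?_ (by positivity)
              exact mul_le_mul_of_nonneg_left e1 (by positivity)
        _ = _ := by ring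
    · rw [if_neg hPy, if_neg hPy]
      simp
  refine (norm_sum_le _ _).trans ((Finset.sum_le_sum hy).trans ?_)
  rw [← Finset.sum_mul]
  have hmass : ∑ y ∈ S, (if Pg p S h m j y then wt p h y else 0) = mass p S h (Pg p S h m j) := rfl
  rw [hmass]
  have hm0 := mass_nonneg p S h (Pg p S h m j)
  -- constants
  have hconst : 2 ^ i * (c * Bi * Bj * (2 * WW j)) ≤ (1 / 4 * (1 / 2) ^ i) * (rho p ^ m) ^ 2 := by
    have e1 : c * Bi * Bj * (2 * WW j) = 8 / NN i * ((4 : ℝ) ^ (m + 1)) ^ (2 - 2 / p) := by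
      rw [hc, hBi, hBj, WW_eq, Real.div_rpow hKi.le h4.le, Real.div_rpow hKj.le h4.le]
      have e2 : KK i ^ (-(1 / p)) * KK i ^ (1 / p - 1) = (KK i)⁻¹ := by
        rw [← Real.rpow_add hKi, show -(1 / p) + (1 / p - 1) = -1 by ring, Real.rpow_neg_one]
      have e3 : KK j ^ (-(1 / p)) * KK j ^ (1 / p - 1) = (KK j)⁻¹ := by
        rw [← Real.rpow_add hKj, show -(1 / p) + (1 / p - 1) = -1 by ring, Real.rpow_neg_one]
      have e4 : (((4 : ℝ) ^ (m + 1)) ^ (1 / p - 1))⁻¹ * (((4 : ℝ) ^ (m + 1)) ^ (1 / p - 1))⁻¹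
          = ((4 : ℝ) ^ (m + 1)) ^ (2 - 2 / p) := by
        rw [← Real.rpow_neg h4.le, ← Real.rpow_add h4]
        congr 1; ring
      rw [← e4]
      have e5 : KK i = (NN i : ℝ) ^ 2 := rfl
      calc KK i ^ (-(1 / p)) * KK j ^ (-(1 / p)) * (2 * NN i) *
            (KK i ^ (1 / p - 1) / ((4 : ℝ) ^ (m + 1)) ^ (1 / p - 1)) *
            (KK j ^ (1 / p - 1) / ((4 : ℝ) ^ (m + 1)) ^ (1 / p - 1)) * (2 * (2 * KK j))
          = (KK i ^ (-(1 / p)) * KK i ^ (1 / p - 1)) * (KK j ^ (-(1 / p)) * KK j ^ (1 / p - 1)) *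
            (8 * NN i * KK j) * ((((4 : ℝ) ^ (m + 1)) ^ (1 / p - 1))⁻¹ *
              (((4 : ℝ) ^ (m + 1)) ^ (1 / p - 1))⁻¹) := by
              rw [div_eq_mul_inv, div_eq_mul_inv]; ring
        _ = _ := by
              rw [e2, e3, e5]
              field_simp
    have e6 : ((4 : ℝ) ^ (m + 1)) ^ (2 - 2 / p) ≤ 4 ^ i * (rho p ^ m) ^ 2 := by
      have h4m : (0 : ℝ) < 4 ^ m := by positivity
      have hs : 0 < 2 / p - 1 := by
        have : 1 < 2 / p := by rw [lt_div_iff₀ hp0]; linarith
        linarith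
      calc ((4 : ℝ) ^ (m + 1)) ^ (2 - 2 / p)
          = 4 ^ (m + 1) * ((4 : ℝ) ^ (m + 1)) ^ (-(2 / p - 1)) := by
            nth_rewrite 2 [← Real.rpow_one ((4 : ℝ) ^ (m + 1))]
            rw [← Real.rpow_add h4]
            congr 1; ring
        _ ≤ 4 ^ i * ((4 : ℝ) ^ m) ^ (-(2 / p - 1)) := by
            refine mul_le_mul (pow_le_pow_right₀ (by norm_num) hmi) ?_ (by positivity) (by positivity)
            refine Real.rpow_le_rpow_of_nonpos h4m ?_ (by linarith)
            exact pow_le_pow_right₀ (by norm_num) (by omega)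
        _ = _ := by rw [four_rpow]
    have e7 : (32 : ℝ) * 16 ^ i ≤ NN i := by
      have : 32 * 16 ^ i ≤ NN i := by
        unfold NN
        rw [show (32 : ℕ) = 2 ^ 5 by norm_num, show (16 : ℕ) ^ i = 2 ^ (4 * i) by
          rw [pow_mul]; norm_num, ← pow_add]
        apply Nat.pow_le_pow_right (by norm_num)
        have := four_pow_ge i
        omega
      exact_mod_cast this
    rw [e1]
    calc 2 ^ i * (8 / (NN i : ℝ) * ((4 : ℝ) ^ (m + 1)) ^ (2 - 2 / p))
        ≤ 2 ^ i * (8 / (32 * 16 ^ i) * (4 ^ i * (rho p ^ m) ^ 2)) := by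
          refine mul_le_mul_of_nonneg_left ?_ (by positivity)
          refine mul_le_mul ?_ e6 (by positivity) (by positivity)
          exact div_le_div_of_nonneg_left (by norm_num) (by positivity) e7
      _ = _ := by
          have : (16 : ℝ) ^ i = 4 ^ i * 2 ^ i * 2 ^ i := by rw [← mul_pow, ← mul_pow]; norm_num
          rw [this, div_pow, one_pow]
          have h1 : (0 : ℝ) < 4 ^ i := by positivity
          have h2 : (0 : ℝ) < 2 ^ i := by positivity
          field_simp
          ring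
  calc mass p S h (Pg p S h m j) * (2 ^ i * (c * Bi * Bj * (2 * WW j)))
      ≤ mass p S h (Pg p S h m j) * ((1 / 4 * (1 / 2) ^ i) * (rho p ^ m) ^ 2) :=
        mul_le_mul_of_nonneg_left hconst hm0
    _ = _ := by ring

lemma level_energy' {p : ℝ} (hp : 1 < p) (hp2 : p < 2) (S : Finset ℤ) (G : ℕ → ℤ → ℂ) (m J : ℕ) :
    ‖∑ j ∈ range J, (if m < j then TT p j (vec S (G j) (Pg p S (G j) m j)) else 0)‖ ^ 2
      ≤ 2 * ∑ j ∈ range J,
        (if m < j then (rho p ^ m) ^ 2 * mass p S (G j) (Pg p S (G j) m j) else 0) := by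
  have hp0 : 0 < p := by linarith
  have hr := rho_pos p
  apply energy (c := fun i => 1 / 4 * (1 / 2) ^ i)
  · intro j
    split_ifs
    · have := mass_nonneg p S (G j) (Pg p S (G j) m j)
      positivity
    · exact le_rfl
  · intro j
    split_ifs with h
    · exact TT_L2 hp0 hp2 S (G j) _ j m (fun x hx => hx.1.2.le)
    · simp
  · intro i j hij
    by_cases hmi : m < i
    · rw [if_pos hmi, if_pos (hmi.trans hij), if_pos (hmi.trans hij)]
      exact cross' hp hp2 S (G i) (G j) hmi hij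
    · rw [if_neg hmi, inner_zero_left, norm_zero]
      refine mul_nonneg (by positivity) ?_
      split_ifs
      · have := mass_nonneg p S (G j) (Pg p S (G j) m j)
        positivity
      · exact le_rfl
  · intro J
    rw [← Finset.mul_sum]
    have := sum_geometric_two_le J
    linarith

/-- the mass of a level is controlled by the weight -/
lemma mass_lvl {p : ℝ} (hp : 1 < p) (hp2 : p < 2) (S : Finset ℤ) (g : ℤ → ℂ) (m j : ℕ) :
    (rho p ^ m) ^ 2 * mass p S g (Pg p S g m j) ≤ rho p ^ m * (2 * ms (mu p g j) S (lvl p g m j)) := by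
  classical
  have hr0 := rho_pos p
  have hr2 := rho_ge hp
  have h1 : rho p ^ m * mass p S g (Pg p S g m j) ≤ 2 * ms (mu p g j) S (lvl p g m j) := by
    rw [mass_eq, ms_eq, Finset.mul_sum, Finset.mul_sum]
    refine Finset.sum_le_sum fun x _ => ?_
    by_cases hx : Pg p S g m j x
    · rw [if_pos hx, if_pos hx.1]
      have h2 := wt_le_mu hp hp2 hx.1.1
      have h3 := wt_nonneg p g x
      rw [pow_succ] at h2
      have h4 : 0 ≤ rho p ^ m * wt p g x := by positivity
      nlinarith
    · rw [if_neg hx, mul_zero]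
      split_ifs
      · have := mu_nonneg p g j x
        positivity
      · simp
  calc _ = rho p ^ m * (rho p ^ m * mass p S g (Pg p S g m j)) := by ring
    _ ≤ _ := mul_le_mul_of_nonneg_left h1 (by positivity)

lemma sum_lvl_le (p : ℝ) (S : Finset ℤ) (g : ℤ → ℂ) (j : ℕ) :
    ∑ m ∈ range j, ms (mu p g j) S (lvl p g m j) ≤ ms (mu p g j) S (core p g j) := by
  classical
  have hK := KK_pos j
  simp_rw [ms_eq (mu p g j) S]
  rw [Finset.sum_comm]
  refine Finset.sum_le_sum fun x _ => ?_
  rw [← Finset.sum_filter, Finset.sum_const, nsmul_eq_mul]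
  have hmu := mu_nonneg p g j x
  have h1 : ((range j).filter (fun m => lvl p g m j x)).card ≤ 1 := by
    rw [Finset.card_le_one]
    intro a ha b hb
    have ha' := (mem_filter.1 ha).2
    have hb' := (mem_filter.1 hb).2
    by_contra hne
    wlog h : a < b generalizing a b
    · exact this b hb a ha hb' ha' (Ne.symm hne) (by omega)
    have h2 : KK j / 4 ^ b ≤ KK j / 4 ^ (a + 1) := by
      apply div_le_div_of_nonneg_left hK.le (by positivity)
      exact pow_le_pow_right₀ (by norm_num) h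
    have h3 := ha'.1
    have h4 := hb'.2
    linarith
  by_cases hc : core p g j x
  · rw [if_pos hc]
    have h2 : (((range j).filter (fun m => lvl p g m j x)).card : ℝ) ≤ 1 := by exact_mod_cast h1
    nlinarith
  · rw [if_neg hc]
    have h2 : ((range j).filter (fun m => lvl p g m j x)) = ∅ := by
      rw [Finset.filter_eq_empty_iff]
      intro m hm hl
      exact hc (lvl_core (mem_range.1 hm) hl)
    rw [h2]
    simp

lemma vec_partition' (p : ℝ) (S : Finset ℤ) (g : ℤ → ℂ) (j : ℕ) :
    vec S g (fun _ => True) = vec S g (fun x => KK j ≤ wt p g x)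
      + vec S g (fun x => wt p g x < KK j / 4 ^ j)
      + vec S g (fun x => core p g j x ∧ ¬ gd p S g j x)
      + ∑ m ∈ range j, vec S g (Pg p S g m j) := by
  classical
  have hK := KK_pos j
  unfold vec
  rw [Finset.sum_comm (s := range j), ← Finset.sum_add_distrib, ← Finset.sum_add_distrib,
    ← Finset.sum_add_distrib]
  refine Finset.sum_congr rfl fun x _ => ?_
  rw [← Finset.sum_smul, ← add_smul, ← add_smul, ← add_smul]
  congr 1
  have h1 : ∑ m ∈ range j, (if Pg p S g m j x then g x else 0)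
      = if core p g j x ∧ gd p S g j x then g x else 0 := by
    by_cases hg : gd p S g j x
    · have := lvl_sum p g j j x (g x)
      simp only [Pg, hg, and_true]
      rw [this]
      by_cases hc : core p g j x
      · rw [if_pos hc]; exact if_pos hc
      · rw [if_neg hc]; exact if_neg hc
    · simp [Pg, hg]
  rw [h1]
  have h2 : KK j / 4 ^ j ≤ KK j := by
    rw [div_le_iff₀ (by positivity)]
    have : (1 : ℝ) ≤ 4 ^ j := one_le_pow₀ (by norm_num)
    nlinarith
  by_cases hA : KK j ≤ wt p g x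
  · have hnc : ¬ core p g j x := fun h => absurd h.2 (not_lt.2 hA)
    have hnl : ¬ wt p g x < KK j / 4 ^ j := not_lt.2 (h2.trans hA)
    simp [hA, hnc, hnl]
  · by_cases hB : wt p g x < KK j / 4 ^ j
    · have hnc : ¬ core p g j x := fun h => absurd h.1 (not_le.2 hB)
      simp [hA, hB, hnc]
    · have hc : core p g j x := ⟨not_lt.1 hB, not_le.1 hA⟩
      by_cases hg : gd p S g j x <;> simp [hA, hB, hc, hg]

lemma bad_card' (p : ℝ) (S : Finset ℤ) (g : ℤ → ℂ) (j : ℕ) :
    ∃ X : Finset ℤ, (X.card : ℝ) ≤ 2 * ms (mu p g j) S (core p g j) ∧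
      ∀ k ∉ X, TT p j (vec S g (fun x => core p g j x ∧ ¬ gd p S g j x)) k = 0 := by
  classical
  have hW : (0 : ℤ) < WW j := by exact_mod_cast WW_pos j
  set R := (S.filter (fun x => core p g j x ∧ ¬ gd p S g j x)).image (fun x => x / (WW j : ℤ)) with hR
  refine ⟨R.biUnion (fun r => Finset.Ico (r * WW j + WW j) (r * WW j + WW j + 2 * WW j)), ?_, ?_⟩
  · have h1 : ((R.biUnion (fun r => Finset.Ico (r * (WW j : ℤ) + WW j) (r * WW j + WW j + 2 * WW j))).card : ℝ)
        ≤ ∑ r ∈ R, (2 * (WW j : ℝ)) := by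
      have h2 := Finset.card_biUnion_le (s := R)
        (t := fun r => Finset.Ico (r * (WW j : ℤ) + WW j) (r * WW j + WW j + 2 * WW j))
      have h3 : ∑ r ∈ R, (Finset.Ico (r * (WW j : ℤ) + WW j) (r * WW j + WW j + 2 * WW j)).card
          = ∑ r ∈ R, (2 * WW j) := by
        refine Finset.sum_congr rfl fun r _ => ?_
        rw [Int.card_Ico]
        omega
      rw [h3] at h2
      exact_mod_cast h2
    refine h1.trans ?_
    have h4 : ∀ r ∈ R, (WW j : ℝ) ≤ Sw p S g j r := by
      intro r hr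
      rw [hR, Finset.mem_image] at hr
      obtain ⟨x, hx, rfl⟩ := hr
      have := (mem_filter.1 hx).2.2
      unfold gd at this
      exact (not_le.1 this).le
    rw [← Finset.mul_sum]
    refine mul_le_mul_of_nonneg_left ((Finset.sum_le_sum h4).trans ?_) (by norm_num)
    unfold Sw
    simp_rw [ms_eq (mu p g j) S]
    rw [Finset.sum_comm]
    refine Finset.sum_le_sum fun x _ => ?_
    by_cases hc : core p g j x
    · simp only [hc, true_and, if_true]
      rw [Finset.sum_ite_eq]
      split_ifs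
      · exact le_rfl
      · exact mu_nonneg _ _ _ _
    · simp [hc]
  · intro k hk
    by_contra h
    obtain ⟨l, hl, h2⟩ := TT_apply_ne h
    obtain ⟨h3, h4⟩ := vec_apply _ _ _ _ h2
    apply hk
    rw [Finset.mem_biUnion]
    refine ⟨(k - ((WW j : ℤ) + l)) / (WW j : ℤ), ?_, ?_⟩
    · rw [hR, Finset.mem_image]
      exact ⟨_, mem_filter.2 ⟨h3, h4⟩, rfl⟩
    · rw [Finset.mem_Ico]
      have e1 := Int.mul_ediv_add_emod (k - ((WW j : ℤ) + l)) (WW j : ℤ)
      have e3 := Int.emod_nonneg (k - ((WW j : ℤ) + l)) hW.ne'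
      have e4 := Int.emod_lt_of_pos (k - ((WW j : ℤ) + l)) hW
      rw [mul_comm] at e1
      constructor <;> omega

/-- the low part -/
lemma low_L2 {p : ℝ} (hp : 0 < p) (hp2 : p < 2) (S : Finset ℤ) (g : ℤ → ℂ) (j : ℕ) :
    ‖TT p j (vec S g (fun x => wt p g x < KK j / 4 ^ j))‖ ^ 2 ≤
      rho p ^ j * ms (mu p g j) S (fun x => wt p g x < KK j / 4 ^ j) := by
  classical
  have hK := KK_pos j
  have he := ep_pos hp hp2
  have h4 : (0 : ℝ) < 4 ^ j := by positivity
  refine (TT_norm_sq p j _).trans ?_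
  rw [vec_norm_sq, ms_eq, Finset.mul_sum, Finset.mul_sum]
  refine Finset.sum_le_sum fun x _ => ?_
  by_cases hx : wt p g x < KK j / 4 ^ j
  · rw [if_pos hx, if_pos hx]
    have hw := wt_nonneg p g x
    rw [rpow_two_div hp]
    unfold mu
    have h2e : 2 / p - 1 = ep p + ep p := by unfold ep; ring
    have h1 : wt p g x ^ (2 / p) = wt p g x ^ (ep p + ep p) * wt p g x := by
      nth_rewrite 3 [← Real.rpow_one (wt p g x)]
      rw [← Real.rpow_add_of_nonneg hw (by linarith) zero_le_one]
      congr 1; rw [← h2e]; ring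
    rw [h1, h2e]
    have h2 : KK j ^ (-(ep p + ep p)) * wt p g x ^ (ep p + ep p) =
        (wt p g x / KK j) ^ (ep p) * (wt p g x / KK j) ^ (ep p) := by
      rw [Real.rpow_neg hK.le, Real.div_rpow hw hK.le, Real.rpow_add hK,
        Real.rpow_add_of_nonneg hw he.le he.le]
      have := Real.rpow_pos_of_pos hK (ep p)
      field_simp
    have h3 : (wt p g x / KK j) ^ (ep p) ≤ rho p ^ j := by
      rw [← rho_eq, Real.rpow_neg h4.le, ← Real.inv_rpow h4.le]
      refine Real.rpow_le_rpow (by positivity) ?_ he.le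
      rw [div_le_iff₀ hK]
      refine hx.le.trans (le_of_eq ?_)
      rw [div_eq_mul_inv]; ring
    have h5 : 0 ≤ (wt p g x / KK j) ^ (ep p) := by positivity
    calc _ = (KK j ^ (-(ep p + ep p)) * wt p g x ^ (ep p + ep p)) * wt p g x := by ring
      _ = ((wt p g x / KK j) ^ (ep p) * (wt p g x / KK j) ^ (ep p)) * wt p g x := by rw [h2]
      _ ≤ (rho p ^ j * (wt p g x / KK j) ^ (ep p)) * wt p g x := by gcongr
      _ = _ := by ring
  · rw [if_neg hx, if_neg hx]
    simp

/-- the constant -/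
noncomputable def C1 (p : ℝ) : ℝ := 2 + 10 / (1 - rho p)

lemma C1_ge {p : ℝ} (hp : 0 < p) (hp2 : p < 2) : 2 ≤ C1 p := by
  have := rho_lt_one hp hp2
  unfold C1
  have : 0 ≤ 10 / (1 - rho p) := div_nonneg (by norm_num) (by linarith)
  linarith

/-- the profile -/
noncomputable def psi (p : ℝ) (j : ℕ) (y : ℝ) : ℝ :=
  C1 p * (KK j * min 1 ((y ^ p / KK j) ^ (1 + ep p)))

lemma psi_nonneg {p : ℝ} (hp : 0 < p) (hp2 : p < 2) (j : ℕ) {y : ℝ} (hy : 0 ≤ y) :
    0 ≤ psi p j y := by
  have := C1_ge hp hp2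
  have := KK_pos j
  unfold psi
  have : 0 ≤ min 1 ((y ^ p / KK j) ^ (1 + ep p)) := le_min (by norm_num) (by positivity)
  have h2 : 0 ≤ C1 p := by linarith
  positivity

lemma geom_le {p : ℝ} (hp : 0 < p) (hp2 : p < 2) (J : ℕ) :
    ∑ j ∈ range J, rho p ^ j ≤ 1 / (1 - rho p) := by
  have hr0 := rho_pos p
  have hr1 := rho_lt_one hp hp2
  rw [geom_sum_eq hr1.ne]
  rw [← neg_div_neg_eq, neg_sub, neg_sub]
  apply div_le_div_of_nonneg_right _ (by linarith)
  have : 0 ≤ rho p ^ J := by positivity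
  linarith

lemma cs_geom {p : ℝ} (hp : 0 < p) (hp2 : p < 2) (J : ℕ) (a b : ℕ → ℝ) (_ : ∀ j, 0 ≤ a j)
    (_ : ∀ j, 0 ≤ b j) (h : ∀ j, a j ^ 2 ≤ rho p ^ j * b j) :
    (∑ j ∈ range J, a j) ^ 2 ≤ 1 / (1 - rho p) * ∑ j ∈ range J, b j := by
  have hr0 := rho_pos p
  have hr1 := rho_lt_one hp hp2
  have h1 : (∑ j ∈ range J, a j) ^ 2 ≤
      (∑ j ∈ range J, rho p ^ j) * ∑ j ∈ range J, (a j ^ 2 / rho p ^ j) := by
    apply Finset.sum_sq_le_sum_mul_sum_of_sq_le_mul
    · intro i _; positivity
    · intro i _; positivity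
    · intro i _
      have : rho p ^ i ≠ 0 := by positivity
      refine le_of_eq ?_
      field_simp
  have h2 : ∑ j ∈ range J, (a j ^ 2 / rho p ^ j) ≤ ∑ j ∈ range J, b j := by
    refine Finset.sum_le_sum fun j _ => ?_
    rw [div_le_iff₀ (by positivity), mul_comm]
    exact h j
  have h3 : 0 ≤ ∑ j ∈ range J, (a j ^ 2 / rho p ^ j) := Finset.sum_nonneg fun j _ => by positivity
  calc _ ≤ _ := h1
    _ ≤ (1 / (1 - rho p)) * ∑ j ∈ range J, (a j ^ 2 / rho p ^ j) :=
        mul_le_mul_of_nonneg_right (geom_le hp hp2 J) h3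
    _ ≤ _ := mul_le_mul_of_nonneg_left h2 (by
        apply div_nonneg (by norm_num); linarith)

/-- The vector-valued discrete estimate. -/
theorem discrete_vec {p : ℝ} (hp : 1 < p) (hp2 : p < 2) (J : ℕ) (S F : Finset ℤ)
    (G : ℕ → ℤ → ℂ) (hg : ∀ j x, x ∉ S → G j x = 0)
    (hF : ∀ k ∈ F, 1 < ‖∑ j ∈ range J, kop p j (G j) k‖) :
    (F.card : ℝ) ≤ ∑ j ∈ range J, ∑ x ∈ S, psi p j ‖G j x‖ := by
  classical
  have hp0 : 0 < p := by linarith
  have hr0 := rho_pos p
  have hr1 := rho_lt_one hp0 hp2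
  have h1r : 0 < 1 - rho p := by linarith
  choose XB hXB1 hXB2 using fun j => bad_card' p S (G j) j
  choose XH hXH1 hXH2 using fun j => hi_card p S (G j) j
  set U := (range J).biUnion XB ∪ (range J).biUnion XH with hU
  set MC : ℕ → ℝ := fun j => ms (mu p (G j) j) S (core p (G j) j) with hMC
  set ML : ℕ → ℝ := fun j => ms (mu p (G j) j) S (fun x => wt p (G j) x < KK j / 4 ^ j) with hML
  set MH : ℕ → ℝ := fun j => ∑ x ∈ S, (if KK j ≤ wt p (G j) x then (WW j : ℝ) else 0) with hMH
  have hMC0 : ∀ j, 0 ≤ MC j := fun j => ms_nonneg (mu_nonneg p (G j) j) S _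
  have hML0 : ∀ j, 0 ≤ ML j := fun j => ms_nonneg (mu_nonneg p (G j) j) S _
  have hUcard : (U.card : ℝ) ≤ 2 * ∑ j ∈ range J, MC j + ∑ j ∈ range J, MH j := by
    have e1 : (U.card : ℝ) ≤ ∑ j ∈ range J, ((XB j).card : ℝ) + ∑ j ∈ range J, ((XH j).card : ℝ) := by
      have e2 := Finset.card_union_le ((range J).biUnion XB) ((range J).biUnion XH)
      have e3 := Finset.card_biUnion_le (s := range J) (t := XB)
      have e4 := Finset.card_biUnion_le (s := range J) (t := XH)
      have e5 : U.card ≤ ∑ j ∈ range J, (XB j).card + ∑ j ∈ range J, (XH j).card := by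
        rw [hU]; omega
      exact_mod_cast e5
    refine e1.trans (add_le_add ?_ ?_)
    · rw [Finset.mul_sum]
      exact Finset.sum_le_sum fun j _ => hXB1 j
    · exact Finset.sum_le_sum fun j _ => hXH1 j
  -- the square summable part
  set low : ℕ → E := fun j => TT p j (vec S (G j) (fun x => wt p (G j) x < KK j / 4 ^ j)) with hlow
  set GG : ℕ → E := fun m => ∑ j ∈ range J,
    (if m < j then TT p j (vec S (G j) (Pg p S (G j) m j)) else 0) with hGG
  set u : E := ∑ j ∈ range J, low j + ∑ m ∈ range J, GG m with hu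
  have hlow2 : (∑ j ∈ range J, ‖low j‖) ^ 2 ≤ 1 / (1 - rho p) * ∑ j ∈ range J, ML j :=
    cs_geom hp0 hp2 J _ _ (fun j => norm_nonneg _) hML0
      (fun j => low_L2 hp0 hp2 S (G j) j)
  have hGG2 : (∑ m ∈ range J, ‖GG m‖) ^ 2 ≤ 1 / (1 - rho p) * (4 * ∑ j ∈ range J, MC j) := by
    set b : ℕ → ℝ := fun m => 4 * ∑ j ∈ range J,
      (if m < j then ms (mu p (G j) j) S (lvl p (G j) m j) else 0) with hb
    have hb0 : ∀ m, 0 ≤ b m := by
      intro m
      rw [hb]
      simp only
      refine mul_nonneg (by norm_num) (Finset.sum_nonneg fun j _ => ?_)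
      split_ifs
      · exact ms_nonneg (mu_nonneg p (G j) j) S _
      · exact le_rfl
    refine (cs_geom hp0 hp2 J (fun m => ‖GG m‖) b (fun m => norm_nonneg _) hb0 ?_).trans ?_
    · intro m
      have e1 := level_energy' hp hp2 S G m J
      refine e1.trans ?_
      rw [hb]
      simp only
      have e2 : ∑ j ∈ range J, (if m < j then (rho p ^ m) ^ 2 * mass p S (G j) (Pg p S (G j) m j)
          else 0) ≤ rho p ^ m * (2 * ∑ j ∈ range J,
            (if m < j then ms (mu p (G j) j) S (lvl p (G j) m j) else 0)) := by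
        rw [Finset.mul_sum, Finset.mul_sum]
        refine Finset.sum_le_sum fun j _ => ?_
        split_ifs with h
        · exact mass_lvl hp hp2 S (G j) m j
        · simp
      linarith
    · refine mul_le_mul_of_nonneg_left ?_ (by positivity)
      rw [hb]
      simp only
      rw [← Finset.mul_sum]
      refine mul_le_mul_of_nonneg_left ?_ (by norm_num)
      rw [Finset.sum_comm]
      refine Finset.sum_le_sum fun j hj => ?_
      refine le_trans (le_of_eq ?_) (sum_lvl_le p S (G j) j)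
      rw [← Finset.sum_filter]
      congr 1
      ext m
      simp only [mem_range, mem_filter] at hj ⊢
      omega
  have hun : ‖u‖ ≤ ∑ j ∈ range J, ‖low j‖ + ∑ m ∈ range J, ‖GG m‖ :=
    (norm_add_le _ _).trans (add_le_add (norm_sum_le _ _) (norm_sum_le _ _))
  have hun2 : ‖u‖ ^ 2 ≤ 2 / (1 - rho p) * ∑ j ∈ range J, ML j +
      8 / (1 - rho p) * ∑ j ∈ range J, MC j := by
    have e1 : ‖u‖ ^ 2 ≤ (∑ j ∈ range J, ‖low j‖ + ∑ m ∈ range J, ‖GG m‖) ^ 2 :=
      pow_le_pow_left₀ (norm_nonneg _) hun 2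
    have e2 : (∑ j ∈ range J, ‖low j‖ + ∑ m ∈ range J, ‖GG m‖) ^ 2 ≤
        2 * (∑ j ∈ range J, ‖low j‖) ^ 2 + 2 * (∑ m ∈ range J, ‖GG m‖) ^ 2 := by
      nlinarith [sq_nonneg (∑ j ∈ range J, ‖low j‖ - ∑ m ∈ range J, ‖GG m‖)]
    refine e1.trans (e2.trans ?_)
    calc _ ≤ 2 * (1 / (1 - rho p) * ∑ j ∈ range J, ML j) +
        2 * (1 / (1 - rho p) * (4 * ∑ j ∈ range J, MC j)) := by linarith
      _ = _ := by ring
  -- pointwise identity off the exceptional set
  have hpt : ∀ k, k ∉ U → ∑ j ∈ range J, kop p j (G j) k = u k := by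
    intro k hk
    rw [hU, Finset.mem_union, not_or, Finset.mem_biUnion, Finset.mem_biUnion] at hk
    push Not at hk
    have e1 : ∀ j ∈ range J, kop p j (G j) k = low j k + ∑ m ∈ range J,
        (if m < j then TT p j (vec S (G j) (Pg p S (G j) m j)) else 0 : E) k := by
      intro j hj
      have e2 : kop p j (G j) k = TT p j (vec S (G j) (fun _ => True)) k := by
        rw [TT_apply]
        congr 1
        ext k
        rw [vec_true_apply S (G j) (hg j)]
      have e3 : TT p j (vec S (G j) (fun _ => True)) =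
          TT p j (vec S (G j) (fun x => KK j ≤ wt p (G j) x))
          + low j + TT p j (vec S (G j) (fun x => core p (G j) j x ∧ ¬ gd p S (G j) j x))
          + ∑ m ∈ range j, TT p j (vec S (G j) (Pg p S (G j) m j)) := by
        rw [vec_partition' p S (G j) j, TT_add, TT_add, TT_add]
        congr 1
        exact map_sum (TTh p j) _ _
      have e4 : ∑ m ∈ range j, TT p j (vec S (G j) (Pg p S (G j) m j))
          = ∑ m ∈ range J, (if m < j then TT p j (vec S (G j) (Pg p S (G j) m j)) else 0) := by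
        rw [← Finset.sum_filter]
        congr 1
        ext m
        simp only [mem_range, mem_filter] at hj ⊢
        omega
      rw [e2, e3, e4]
      rw [lp.coeFn_add, Pi.add_apply, lp.coeFn_add, Pi.add_apply, lp.coeFn_add, Pi.add_apply,
        hXH2 j k (hk.2 j hj), hXB2 j k (hk.1 j hj), sum_apply]
      ring
    rw [Finset.sum_congr rfl e1, Finset.sum_add_distrib, Finset.sum_comm, hu, lp.coeFn_add,
      Pi.add_apply, sum_apply, sum_apply]
    congr 1
    refine Finset.sum_congr rfl fun m _ => ?_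
    rw [hGG]
    simp only
    rw [sum_apply]
  -- conclusion
  have hsplit : (F.card : ℝ) ≤ (U.card : ℝ) + ((F \ U).card : ℝ) := by
    have : F.card ≤ U.card + (F \ U).card := by
      calc F.card ≤ (U ∪ (F \ U)).card := Finset.card_le_card (by
            intro x hx
            by_cases h : x ∈ U
            · exact Finset.mem_union_left _ h
            · exact Finset.mem_union_right _ (Finset.mem_sdiff.2 ⟨hx, h⟩))
        _ ≤ _ := Finset.card_union_le _ _
    exact_mod_cast this
  have hcheb : ((F \ U).card : ℝ) ≤ ‖u‖ ^ 2 := by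
    calc ((F \ U).card : ℝ) = ∑ k ∈ F \ U, (1 : ℝ) := by simp
      _ ≤ ∑ k ∈ F \ U, ‖u k‖ ^ 2 := by
          refine Finset.sum_le_sum fun k hk => ?_
          rw [Finset.mem_sdiff] at hk
          have := hF k hk.1
          rw [hpt k hk.2] at this
          nlinarith
      _ ≤ ‖u‖ ^ 2 := sum_norm_sq_le u _
  have hfin : 2 * ∑ j ∈ range J, MC j + ∑ j ∈ range J, MH j +
      (2 / (1 - rho p) * ∑ j ∈ range J, ML j + 8 / (1 - rho p) * ∑ j ∈ range J, MC j) ≤
      ∑ j ∈ range J, ∑ x ∈ S, psi p j ‖G j x‖ := by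
    have e1 : 2 * ∑ j ∈ range J, MC j + ∑ j ∈ range J, MH j +
      (2 / (1 - rho p) * ∑ j ∈ range J, ML j + 8 / (1 - rho p) * ∑ j ∈ range J, MC j) =
      ∑ j ∈ range J, ((2 + 8 / (1 - rho p)) * MC j + MH j + 2 / (1 - rho p) * ML j) := by
      rw [Finset.sum_add_distrib, Finset.sum_add_distrib, ← Finset.mul_sum, ← Finset.mul_sum]
      ring
    rw [e1]
    refine Finset.sum_le_sum fun j _ => ?_
    rw [hMC, hML, hMH]
    simp only
    rw [ms_eq, ms_eq, Finset.mul_sum, Finset.mul_sum, ← Finset.sum_add_distrib,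
      ← Finset.sum_add_distrib]
    refine Finset.sum_le_sum fun x _ => ?_
    have hK := KK_pos j
    have hw := wt_nonneg p (G j) x
    have hC := C1_ge hp0 hp2
    have hmu := mu_nonneg p (G j) j x
    have he := ep_pos hp0 hp2
    have hwd : ‖G j x‖ ^ p = wt p (G j) x := rfl
    have h8 : 0 ≤ 8 / (1 - rho p) := by positivity
    have h2' : 0 ≤ 2 / (1 - rho p) := by positivity
    unfold psi
    rw [hwd]
    by_cases hA : KK j ≤ wt p (G j) x
    · have hnc : ¬ core p (G j) j x := fun h => absurd h.2 (not_lt.2 hA)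
      have h2 : KK j / 4 ^ j ≤ KK j := by
        rw [div_le_iff₀ (by positivity)]
        have : (1 : ℝ) ≤ 4 ^ j := one_le_pow₀ (by norm_num)
        nlinarith
      have hnl : ¬ wt p (G j) x < KK j / 4 ^ j := not_lt.2 (h2.trans hA)
      rw [if_neg hnc, if_pos hA, if_neg hnl, mul_zero, mul_zero, zero_add, add_zero, WW_eq]
      have h3 : min 1 ((wt p (G j) x / KK j) ^ (1 + ep p)) = 1 := by
        apply min_eq_left
        apply Real.one_le_rpow _ (by linarith)
        rw [one_le_div hK]; exact hA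
      rw [h3]
      nlinarith
    · have hA' := not_le.1 hA
      rw [if_neg hA]
      have h3 : min 1 ((wt p (G j) x / KK j) ^ (1 + ep p)) = (wt p (G j) x / KK j) ^ (1 + ep p) := by
        apply min_eq_right
        apply Real.rpow_le_one (by positivity) _ (by linarith)
        rw [div_le_one hK]; exact hA'.le
      have h4 : KK j * (wt p (G j) x / KK j) ^ (1 + ep p) = mu p (G j) j x := by
        unfold mu
        rw [Real.rpow_add_of_nonneg (by positivity) (by norm_num) he.le, Real.rpow_one]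
        field_simp
      rw [h3, h4]
      have h5 : C1 p = 2 + 8 / (1 - rho p) + 2 / (1 - rho p) := by unfold C1; ring
      rw [h5]
      by_cases hB : core p (G j) j x
      · have hnl : ¬ wt p (G j) x < KK j / 4 ^ j := not_lt.2 hB.1
        rw [if_pos hB, if_neg hnl]
        have : 0 ≤ 2 / (1 - rho p) * mu p (G j) j x := by positivity
        linarith
      · rw [if_neg hB]
        have : 0 ≤ (2 + 8 / (1 - rho p)) * mu p (G j) j x := by positivity
        split_ifs
        · linarith
        · have : 0 ≤ 2 / (1 - rho p) * mu p (G j) j x := by positivity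
          linarith
  linarith

end Pool.Agent.Y858.RV
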