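import Mathlib
import Pool.Agent.Y858.RV.A

set_option autoImplicit false

/-!
# The operators `T_a = ∑_j a_j T_j` on `R^n`
-/

open Finset Complex MeasureTheory
open scoped ComplexInnerProductSpace ENNReal NNReal

namespace Pool.Agent.Y858.RV

open Pool.Agent.Results.MP_f2c8fe_an.RiviereFalse

/-- The discrete estimate for arbitrary sequences. -/
lemma discrete_vec_enn {p : ℝ} (hp : 1 < p) (hp2 : p < 2) (J : ℕ) (G : ℕ → ℤ → ℂ) :
    ∑' k : ℤ, (if 1 < ‖∑ j ∈ range J, kop p j (G j) k‖ then (1 : ℝ≥0∞) else 0)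
      ≤ ∑ j ∈ range J, ∑' k : ℤ, ENNReal.ofReal (psi p j ‖G j k‖) := by
  classical
  have hp0 : 0 < p := by linarith
  rw [ENNReal.tsum_eq_iSup_sum]
  refine iSup_le fun F => ?_
  rw [← Finset.sum_filter, Finset.sum_const, nsmul_eq_mul, mul_one]
  set F' := F.filter (fun k => 1 < ‖∑ j ∈ range J, kop p j (G j) k‖) with hF'
  set S : Finset ℤ := F'.biUnion (fun k => (range J).biUnion (fun j => (range (WW j)).image
    (fun l : ℕ => k - ((WW j : ℤ) + l)))) with hS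
  set G' : ℕ → ℤ → ℂ := fun j x => if x ∈ S then G j x else 0 with hG'
  have h1 : ∀ k ∈ F', ∑ j ∈ range J, kop p j (G' j) k = ∑ j ∈ range J, kop p j (G j) k := by
    intro k hk
    refine Finset.sum_congr rfl fun j hj => ?_
    unfold kop
    congr 1
    refine Finset.sum_congr rfl fun l hl => ?_
    have : k - ((WW j : ℤ) + l) ∈ S := by
      rw [hS, Finset.mem_biUnion]
      refine ⟨k, hk, ?_⟩
      rw [Finset.mem_biUnion]
      refine ⟨j, hj, ?_⟩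
      rw [Finset.mem_image]
      exact ⟨l, hl, rfl⟩
    rw [hG']
    simp only
    rw [if_pos this]
  have h2 := discrete_vec hp hp2 J S F' G'
    (fun j x hx => by rw [hG']; simp only; rw [if_neg hx])
    (fun k hk => by rw [h1 k hk]; exact (mem_filter.1 hk).2)
  have h3 : ∑ j ∈ range J, ∑ x ∈ S, psi p j ‖G' j x‖ =
      ∑ j ∈ range J, ∑ x ∈ S, psi p j ‖G j x‖ := by
    refine Finset.sum_congr rfl fun j _ => Finset.sum_congr rfl fun x hx => ?_
    rw [hG']; simp only; rw [if_pos hx]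
  rw [h3] at h2
  calc ((F'.card : ℕ) : ℝ≥0∞) = ENNReal.ofReal (F'.card : ℝ) := by rw [ENNReal.ofReal_natCast]
    _ ≤ ENNReal.ofReal (∑ j ∈ range J, ∑ x ∈ S, psi p j ‖G j x‖) := ENNReal.ofReal_le_ofReal h2
    _ = ∑ j ∈ range J, ∑ x ∈ S, ENNReal.ofReal (psi p j ‖G j x‖) := by
        rw [ENNReal.ofReal_sum_of_nonneg (fun j _ => Finset.sum_nonneg fun x _ =>
          psi_nonneg hp0 hp2 j (norm_nonneg _))]
        refine Finset.sum_congr rfl fun j _ => ?_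
        rw [ENNReal.ofReal_sum_of_nonneg (fun x _ => psi_nonneg hp0 hp2 j (norm_nonneg _))]
    _ ≤ _ := Finset.sum_le_sum fun j _ => ENNReal.sum_le_tsum S

variable {n : ℕ}

/-- the term of the scale `j` -/
noncomputable def tj (p : ℝ) (a : ℕ → ℝ) (i₀ : Fin n) (j : ℕ) (f : (Fin n → ℝ) → ℂ)
    (x : Fin n → ℝ) : ℂ := opj p i₀ j (((a j : ℝ) : ℂ) • f) x

/-- the operator on functions -/
noncomputable def opa (p : ℝ) (a : ℕ → ℝ) (i₀ : Fin n) (f : (Fin n → ℝ) → ℂ)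
    (x : Fin n → ℝ) : ℂ := ∑' j, tj p a i₀ j f x

lemma tj_eq (p : ℝ) (a : ℕ → ℝ) (i₀ : Fin n) (j : ℕ) (f : (Fin n → ℝ) → ℂ) (x : Fin n → ℝ) :
    tj p a i₀ j f x = ((a j : ℝ) : ℂ) * opj p i₀ j f x := opj_smul p i₀ j _ f x

lemma tj_meas (p : ℝ) (a : ℕ → ℝ) (i₀ : Fin n) (j : ℕ) {f : (Fin n → ℝ) → ℂ}
    (hf : Measurable f) : Measurable (tj p a i₀ j f) :=
  opj_meas p i₀ j (hf.const_smul _)

lemma psi_meas (p : ℝ) (j : ℕ) : Measurable (psi p j) := by
  unfold psi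
  fun_prop

/-- estimate for finitely many scales -/
lemma fin_est {p : ℝ} (hp : 1 < p) (hp2 : p < 2) (a : ℕ → ℝ) (i₀ : Fin n) (J : ℕ)
    {f : (Fin n → ℝ) → ℂ} (hf : Measurable f) :
    volume {x | 1 < ‖∑ j ∈ range J, tj p a i₀ j f x‖} ≤
      ∑ j ∈ range J, ∫⁻ x, ENNReal.ofReal (psi p j ‖((a j : ℝ) : ℂ) * f x‖) := by
  classical
  have hm : MeasurableSet {x | 1 < ‖∑ j ∈ range J, tj p a i₀ j f x‖} := by
    refine measurableSet_lt measurable_const ?_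
    exact (Finset.measurable_sum _ fun j _ => tj_meas p a i₀ j hf).norm
  have h1 : volume {x | 1 < ‖∑ j ∈ range J, tj p a i₀ j f x‖}
      = ∫⁻ x, {x | 1 < ‖∑ j ∈ range J, tj p a i₀ j f x‖}.indicator (fun _ => (1 : ℝ≥0∞)) x := by
    rw [lintegral_indicator hm]; simp
  have hmj : ∀ j, Measurable fun x : Fin n → ℝ =>
      ENNReal.ofReal (psi p j ‖((a j : ℝ) : ℂ) * f x‖) := fun j =>
    ENNReal.measurable_ofReal.comp ((psi_meas p j).comp (hf.const_mul _).norm)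
  have h2 : ∑ j ∈ range J, ∫⁻ x, ENNReal.ofReal (psi p j ‖((a j : ℝ) : ℂ) * f x‖) =
      ∫⁻ x in slab i₀ 0, ∑ j ∈ range J, ∑' k : ℤ,
        ENNReal.ofReal (psi p j ‖((a j : ℝ) : ℂ) * f (x + (k : ℝ) • uv i₀)‖) := by
    rw [lintegral_finsetSum]
    · refine Finset.sum_congr rfl fun j _ => ?_
      rw [lint_slab i₀ (fun x => ENNReal.ofReal (psi p j ‖((a j : ℝ) : ℂ) * f x‖)) (hmj j)]
    · intro j _
      exact Measurable.tsum fun k => (hmj j).comp (measurable_add_const _)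
  rw [h1, h2, lint_slab i₀ _ (measurable_const.indicator hm)]
  refine lintegral_mono fun x => ?_
  have h3 := discrete_vec_enn hp hp2 J
    (fun j m => (((a j : ℝ) : ℂ) • f) (x + (m : ℝ) • uv i₀))
  refine le_trans (le_of_eq ?_) (h3.trans (le_of_eq ?_))
  · refine tsum_congr fun k => ?_
    simp only [Set.indicator_apply, Set.mem_ofPred_eq, tj, opj_kop]
  · refine Finset.sum_congr rfl fun j _ => tsum_congr fun k => ?_
    rw [Pi.smul_apply, smul_eq_mul]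

lemma tj_summable {p : ℝ} (hp : 1 < p) (hp2 : p < 2) {a : ℕ → ℝ} (ha0 : ∀ j, 0 ≤ a j)
    (ha1 : ∀ j, a j ≤ 1) (i₀ : Fin n) (f : (Fin n → ℝ) → ℂ) (x : Fin n → ℝ)
    (h : ∑' k : ℤ, ‖f (x + (k : ℝ) • uv i₀)‖ₑ ^ p ≠ ∞) :
    Summable (fun j => tj p a i₀ j f x) := by
  have hp0 : 0 < p := by linarith
  have hr := rho_pos p
  have hr1 := rho_lt_one hp0 hp2
  refine Summable.of_norm_bounded (g := fun j => 2 * (∑' k : ℤ, ‖f (x + (k : ℝ) • uv i₀)‖ₑ ^ p).toReal ^ (1 / p) *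
      (rho p ^ 2) ^ j) ?_ (fun j => ?_)
  · apply Summable.mul_left
    apply summable_geometric_of_lt_one (by positivity)
    nlinarith
  · rw [tj_eq, norm_mul, Complex.norm_real, Real.norm_eq_abs, abs_of_nonneg (ha0 j)]
    exact (mul_le_of_le_one_left (norm_nonneg _) (ha1 j)).trans (opj_bound hp hp2 i₀ j f x h)

lemma ae_summable' {p : ℝ} (hp : 1 < p) (hp2 : p < 2) {a : ℕ → ℝ} (ha0 : ∀ j, 0 ≤ a j)
    (ha1 : ∀ j, a j ≤ 1) (i₀ : Fin n)
    {f : (Fin n → ℝ) → ℂ} (hf : Measurable f) (hfin : ∫⁻ x, ‖f x‖ₑ ^ p ≠ ∞) :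
    ∀ᵐ x : (Fin n → ℝ), Summable (fun j => tj p a i₀ j f x) := by
  filter_upwards [orbit_finite i₀ hf hfin] with x hx
  exact tj_summable hp hp2 ha0 ha1 i₀ f x hx

lemma opa_aesm {p : ℝ} (hp : 1 < p) (hp2 : p < 2) {a : ℕ → ℝ} (ha0 : ∀ j, 0 ≤ a j)
    (ha1 : ∀ j, a j ≤ 1) (i₀ : Fin n)
    {f : (Fin n → ℝ) → ℂ} (hf : Measurable f) (hfin : ∫⁻ x, ‖f x‖ₑ ^ p ≠ ∞) :
    AEStronglyMeasurable (opa p a i₀ f) volume := by
  refine aestronglyMeasurable_of_tendsto_ae Filter.atTop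
    (f := fun J x => ∑ j ∈ range J, tj p a i₀ j f x) (fun J => ?_) ?_
  · exact (Finset.measurable_sum _ fun j _ => tj_meas p a i₀ j hf).aestronglyMeasurable
  · filter_upwards [ae_summable' hp hp2 ha0 ha1 i₀ hf hfin] with x hx
    exact hx.hasSum.tendsto_sum_nat

/-- estimate at height one -/
lemma one_est {p : ℝ} (hp : 1 < p) (hp2 : p < 2) {a : ℕ → ℝ} (ha0 : ∀ j, 0 ≤ a j)
    (ha1 : ∀ j, a j ≤ 1) (i₀ : Fin n)
    {f : (Fin n → ℝ) → ℂ} (hf : Measurable f) (hfin : ∫⁻ x, ‖f x‖ₑ ^ p ≠ ∞) :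
    volume {x | 1 < ‖opa p a i₀ f x‖} ≤
      ∑' j, ∫⁻ x, ENNReal.ofReal (psi p j ‖((a j : ℝ) : ℂ) * f x‖) := by
  set s : ℕ → Set ((Fin n → ℝ)) := fun N =>
    ⋂ J ∈ Set.Ici N, {x | 1 < ‖∑ j ∈ range J, tj p a i₀ j f x‖} with hs
  have hmono : Monotone s := by
    intro a b hab x hx
    simp only [hs, Set.mem_iInter, Set.mem_Ici] at hx ⊢
    exact fun J hJ => hx J (hab.trans hJ)
  have h1 : volume {x | 1 < ‖opa p a i₀ f x‖} ≤ volume (⋃ N, s N) := by
    apply measure_mono_ae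
    filter_upwards [ae_summable' hp hp2 ha0 ha1 i₀ hf hfin] with x hx hx1
    have h2 := (hx.hasSum.tendsto_sum_nat).norm
    have h3 := h2.eventually (lt_mem_nhds (show 1 < ‖∑' j, tj p a i₀ j f x‖ from hx1))
    rw [Filter.eventually_atTop] at h3
    obtain ⟨N, hN⟩ := h3
    have : x ∈ ⋃ N, s N := by
      rw [Set.mem_iUnion]
      refine ⟨N, ?_⟩
      simp only [hs, Set.mem_iInter, Set.mem_Ici]
      exact fun J hJ => hN J hJ
    exact this
  refine h1.trans ?_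
  rw [hmono.measure_iUnion]
  refine iSup_le fun N => ?_
  refine le_trans (measure_mono ?_) ((fin_est hp hp2 a i₀ N hf).trans (ENNReal.sum_le_tsum _))
  intro x hx
  simp only [hs, Set.mem_iInter, Set.mem_Ici] at hx
  exact hx N le_rfl

/-! ### The operator on `L^p` -/

lemma opa_congr (p : ℝ) (a : ℕ → ℝ) (i₀ : Fin n) {f g : (Fin n → ℝ) → ℂ}
    (h : f =ᵐ[volume] g) : opa p a i₀ f =ᵐ[volume] opa p a i₀ g := by
  have h1 : ∀ c : ℕ, ∀ᵐ x : (Fin n → ℝ),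
      f (x - ((c : ℝ)) • uv i₀) = g (x - ((c : ℝ)) • uv i₀) := by
    intro c
    exact (measurePreserving_sub_right (volume : Measure ((Fin n → ℝ)))
      ((c : ℝ) • uv i₀)).quasiMeasurePreserving.ae h
  filter_upwards [ae_all_iff.2 h1] with x hx
  unfold opa
  refine tsum_congr fun j => ?_
  rw [tj_eq, tj_eq]
  unfold opj
  congr 2
  refine Finset.sum_congr rfl fun l _ => ?_
  rw [hx]

lemma tj_add (p : ℝ) (a : ℕ → ℝ) (i₀ : Fin n) (j : ℕ) (f g : (Fin n → ℝ) → ℂ)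
    (x : (Fin n → ℝ)) :
    tj p a i₀ j (f + g) x = tj p a i₀ j f x + tj p a i₀ j g x := by
  rw [tj_eq, tj_eq, tj_eq, opj_add, mul_add]

lemma tj_smul (p : ℝ) (a : ℕ → ℝ) (i₀ : Fin n) (j : ℕ) (c : ℂ) (f : (Fin n → ℝ) → ℂ)
    (x : (Fin n → ℝ)) :
    tj p a i₀ j (c • f) x = c * tj p a i₀ j f x := by
  rw [tj_eq, tj_eq, opj_smul]; ring

lemma opa_add {p : ℝ} (hp : 1 < p) (hp2 : p < 2) {a : ℕ → ℝ} (ha0 : ∀ j, 0 ≤ a j)
    (ha1 : ∀ j, a j ≤ 1) (i₀ : Fin n)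
    {f g : (Fin n → ℝ) → ℂ} (hf : Measurable f) (hffin : ∫⁻ x, ‖f x‖ₑ ^ p ≠ ∞)
    (hg : Measurable g) (hgfin : ∫⁻ x, ‖g x‖ₑ ^ p ≠ ∞) :
    opa p a i₀ (f + g) =ᵐ[volume] opa p a i₀ f + opa p a i₀ g := by
  filter_upwards [ae_summable' hp hp2 ha0 ha1 i₀ hf hffin,
    ae_summable' hp hp2 ha0 ha1 i₀ hg hgfin] with x h1 h2
  rw [Pi.add_apply]
  unfold opa
  rw [← h1.tsum_add h2]
  exact tsum_congr fun j => tj_add p a i₀ j f g x

lemma opa_smul (p : ℝ) (a : ℕ → ℝ) (i₀ : Fin n) (c : ℂ) (f : (Fin n → ℝ) → ℂ) :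
    opa p a i₀ (c • f) = c • opa p a i₀ f := by
  ext x
  rw [Pi.smul_apply, smul_eq_mul]
  unfold opa
  rw [← tsum_mul_left]
  exact tsum_congr fun j => tj_smul p a i₀ j c f x

lemma opa_trans (p : ℝ) (a : ℕ → ℝ) (i₀ : Fin n) (f : (Fin n → ℝ) → ℂ)
    (h : (Fin n → ℝ)) :
    opa p a i₀ (f ∘ fun x => x - h) = (opa p a i₀ f) ∘ fun x => x - h := by
  ext x
  unfold opa
  refine tsum_congr fun j => ?_
  rw [tj_eq, tj_eq]
  unfold opj
  congr 2
  refine Finset.sum_congr rfl fun l _ => ?_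
  simp only [Function.comp_apply]
  rw [sub_right_comm]

/-- the operator `T_a` -/
noncomputable def opA {p : ℝ} (hp : 1 < p) (hp2 : p < 2) {a : ℕ → ℝ} (ha0 : ∀ j, 0 ≤ a j)
    (ha1 : ∀ j, a j ≤ 1) (i₀ : Fin n) : Op n p where
  toFun f := AEEqFun.mk (opa p a i₀ f)
    (opa_aesm hp hp2 ha0 ha1 i₀ (Lp_meas f) (Lp_fin (by linarith) f))
  map_add' f g := by
    have hp0 : 0 < p := by linarith
    rw [AEEqFun.mk_add_mk, AEEqFun.mk_eq_mk]
    exact (opa_congr p a i₀ (Lp.coeFn_add f g)).trans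
      (opa_add hp hp2 ha0 ha1 i₀ (Lp_meas f) (Lp_fin hp0 f) (Lp_meas g) (Lp_fin hp0 g))
  map_smul' c f := by
    rw [RingHom.id_apply, AEEqFun.smul_mk, AEEqFun.mk_eq_mk, ← opa_smul]
    exact opa_congr p a i₀ (Lp.coeFn_smul c f)

lemma opA_coe {p : ℝ} (hp : 1 < p) (hp2 : p < 2) {a : ℕ → ℝ} (ha0 : ∀ j, 0 ≤ a j)
    (ha1 : ∀ j, a j ≤ 1) (i₀ : Fin n)
    (f : Lp ℂ (ENNReal.ofReal p) (volume : Measure ((Fin n → ℝ)))) :
    (opA hp hp2 ha0 ha1 i₀ f : (Fin n → ℝ) → ℂ) =ᵐ[volume] opa p a i₀ f :=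
  AEEqFun.coeFn_mk _ _

lemma opA_trans {p : ℝ} (hp : 1 < p) (hp2 : p < 2) {a : ℕ → ℝ} (ha0 : ∀ j, 0 ≤ a j)
    (ha1 : ∀ j, a j ≤ 1) (i₀ : Fin n) : TranslationInvariant (opA (n := n) hp hp2 ha0 ha1 i₀) := by
  intro h f
  have e : opA hp hp2 ha0 ha1 i₀ (Lp.compMeasurePreserving (fun x => x - h)
      (measurePreserving_sub_right volume h) f)
      = (opA hp hp2 ha0 ha1 i₀ f).compMeasurePreserving (fun x => x - h)
        (measurePreserving_sub_right volume h) := by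
    unfold opA
    simp only [LinearMap.coe_mk, AddHom.coe_mk]
    rw [AEEqFun.compMeasurePreserving_mk, AEEqFun.mk_eq_mk, ← opa_trans]
    exact opa_congr p a i₀ (Lp.coeFn_compMeasurePreserving f (measurePreserving_sub_right volume h))
  exact e

/-- distribution function estimate -/
lemma dist_est {p : ℝ} (hp : 1 < p) (hp2 : p < 2) {a : ℕ → ℝ} (ha0 : ∀ j, 0 ≤ a j)
    (ha1 : ∀ j, a j ≤ 1) (i₀ : Fin n)
    {f : (Fin n → ℝ) → ℂ} (hf : Measurable f) (hfin : ∫⁻ x, ‖f x‖ₑ ^ p ≠ ∞)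
    {lam : ℝ} (hlam : 0 < lam) :
    volume {x | ENNReal.ofReal lam < ‖opa p a i₀ f x‖ₑ}
      ≤ ∑' j, ∫⁻ x, ENNReal.ofReal (psi p j (a j * ‖f x‖ / lam)) := by
  have hp0 : 0 < p := by linarith
  have hfin2 : ∫⁻ x, ‖((((lam⁻¹ : ℝ) : ℂ)) • f) x‖ₑ ^ p ≠ ∞ := by
    have h3 : ∫⁻ x, ‖((((lam⁻¹ : ℝ) : ℂ)) • f) x‖ₑ ^ p
        = ‖(((lam⁻¹ : ℝ) : ℂ))‖ₑ ^ p * ∫⁻ x, ‖f x‖ₑ ^ p := by
      rw [← lintegral_const_mul' _ _ (ENNReal.rpow_ne_top_of_nonneg hp0.le (by simp))]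
      refine lintegral_congr fun x => ?_
      rw [Pi.smul_apply, enorm_smul, ENNReal.mul_rpow_of_nonneg _ _ hp0.le]
    rw [h3]
    exact ENNReal.mul_ne_top (ENNReal.rpow_ne_top_of_nonneg hp0.le (by simp)) hfin
  have h1 := one_est hp hp2 ha0 ha1 i₀ (f := (((lam⁻¹ : ℝ) : ℂ)) • f) (hf.const_smul _) hfin2
  have h2 : {x | ENNReal.ofReal lam < ‖opa p a i₀ f x‖ₑ}
      = {x | 1 < ‖opa p a i₀ ((((lam⁻¹ : ℝ) : ℂ)) • f) x‖} := by
    ext x
    rw [opa_smul]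
    simp only [Set.mem_ofPred_eq, Pi.smul_apply, norm_smul, Complex.norm_real, Real.norm_eq_abs]
    rw [abs_of_pos (by positivity), ← ofReal_norm,
      ENNReal.ofReal_lt_ofReal_iff_of_nonneg hlam.le]
    rw [inv_mul_eq_div, one_lt_div hlam]
  rw [h2]
  refine h1.trans (le_of_eq ?_)
  refine tsum_congr fun j => lintegral_congr fun x => ?_
  congr 2
  rw [Pi.smul_apply, smul_eq_mul, norm_mul, norm_mul, Complex.norm_real, Complex.norm_real,
    Real.norm_eq_abs, Real.norm_eq_abs, abs_of_nonneg (ha0 j), abs_of_pos (by positivity)]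
  field_simp

/-! ### Lower bound -/

lemma opa_cube (p : ℝ) (a : ℕ → ℝ) (i₀ : Fin n) (j : ℕ) {q : (Fin n → ℝ)} (hq : q ∈ cube n)
    {l : ℕ} (hl : l < WW j) :
    opa p a i₀ (f0 n) (q + ((WW j + l : ℕ) : ℝ) • uv i₀)
      = ((a j : ℝ) : ℂ) * (((KK j ^ (-(1 / p)) : ℝ) : ℂ) * cc j (l : ℤ)) := by
  unfold opa
  rw [tsum_eq_single j]
  · rw [tj_eq, opj_cube p i₀ j hq, Finset.sum_eq_single l]
    · rw [if_pos rfl]
    · intro b _ hb
      rw [if_neg]; omega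
    · intro h; exact absurd (mem_range.2 hl) h
  · intro i hi
    rw [tj_eq, opj_cube p i₀ i hq, Finset.sum_eq_zero, mul_zero, mul_zero]
    intro b hb
    rw [if_neg]
    intro h
    rw [mem_range] at hb
    have hWi := WW_pos i
    have hWj := WW_pos j
    rcases lt_or_gt_of_ne hi with h1 | h1
    · have h2 : 3 * WW i ≤ WW j := by exact_mod_cast WW_growth h1
      omega
    · have h2 : 3 * WW j ≤ WW i := by exact_mod_cast WW_growth h1
      omega

lemma vol_lower' {p : ℝ} {a : ℕ → ℝ} (ha0 : ∀ j, 0 ≤ a j) (i₀ : Fin n) (j : ℕ) {s : ℝ≥0∞}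
    (hs : s < ENNReal.ofReal (a j * (KK j ^ (-(1 / p)) / 2))) :
    ENNReal.ofReal (KK j) ≤ volume {x | s < ‖opa p a i₀ (f0 n) x‖ₑ} := by
  classical
  have hK := KK_pos j
  set Bl : ℕ → Set ((Fin n → ℝ)) := fun l =>
    (fun x => x - ((WW j + l : ℕ) : ℝ) • uv i₀) ⁻¹' (cube n) with hBl
  have hBm : ∀ l, MeasurableSet (Bl l) := fun l => (measurable_sub_const _) cube_meas
  have hsub : (⋃ l ∈ goodpos j, Bl l) ⊆ {x | s < ‖opa p a i₀ (f0 n) x‖ₑ} := by
    intro x hx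
    simp only [Set.mem_iUnion] at hx
    obtain ⟨l, hl, hx2⟩ := hx
    obtain ⟨h1, h2⟩ := goodpos_spec hl
    have h3 : x - ((WW j + l : ℕ) : ℝ) • uv i₀ ∈ cube n := hx2
    have h4 := opa_cube p a i₀ j h3 h1
    rw [sub_add_cancel] at h4
    show s < ‖opa p a i₀ (f0 n) x‖ₑ
    rw [h4]
    refine lt_of_lt_of_le hs ?_
    rw [← ofReal_norm]
    apply ENNReal.ofReal_le_ofReal
    rw [norm_mul, norm_mul, Complex.norm_real, Complex.norm_real, Real.norm_eq_abs,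
      Real.norm_eq_abs, abs_of_nonneg (ha0 j), abs_of_nonneg (by positivity)]
    refine mul_le_mul_of_nonneg_left ?_ (ha0 j)
    have : 0 < KK j ^ (-(1 / p)) := by positivity
    nlinarith
  refine le_trans ?_ (measure_mono hsub)
  rw [measure_biUnion_finset]
  · have h1 : ∀ l ∈ goodpos j, volume (Bl l) = 1 := by
      intro l _
      rw [hBl]
      simp only
      rw [(measurePreserving_sub_right (volume : Measure ((Fin n → ℝ)))
        (((WW j + l : ℕ) : ℝ) • uv i₀)).measure_preimage cube_meas.nullMeasurableSet, cube_vol]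
    rw [Finset.sum_congr rfl h1, Finset.sum_const, goodpos_card, nsmul_eq_mul, mul_one]
    unfold KK
    rw [show ((NN j : ℝ)) ^ 2 = ((NN j * NN j : ℕ) : ℝ) by push_cast; ring, ENNReal.ofReal_natCast]
  · intro a _ b _ hab
    rw [Function.onFun, Set.disjoint_left]
    intro x hxa hxb
    have h1 : (x - ((WW j + a : ℕ) : ℝ) • uv i₀) i₀ = x i₀ - ((WW j + a : ℕ) : ℝ) := by simp [uv]
    have h2 : (x - ((WW j + b : ℕ) : ℝ) • uv i₀) i₀ = x i₀ - ((WW j + b : ℕ) : ℝ) := by simp [uv]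
    have h3 : (x - ((WW j + a : ℕ) : ℝ) • uv i₀) i₀ ∈ Set.Ico (0 : ℝ) 1 := hxa i₀
    have h4 : (x - ((WW j + b : ℕ) : ℝ) • uv i₀) i₀ ∈ Set.Ico (0 : ℝ) 1 := hxb i₀
    rw [h1] at h3
    rw [h2] at h4
    apply hab
    have h5 : ((WW j + a : ℕ) : ℝ) < ((WW j + b : ℕ) : ℝ) + 1 := by linarith [h3.1, h4.2]
    have h6 : ((WW j + b : ℕ) : ℝ) < ((WW j + a : ℕ) : ℝ) + 1 := by linarith [h3.2, h4.1]
    have h7 : WW j + a < WW j + b + 1 := by exact_mod_cast h5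
    have h8 : WW j + b < WW j + a + 1 := by exact_mod_cast h6
    omega
  · intro l _
    exact hBm l

lemma rearr_lower' {p : ℝ} {a : ℕ → ℝ} (ha0 : ∀ j, 0 ≤ a j) (i₀ : Fin n) (j : ℕ) {t : ℝ}
    (ht : t < KK j) :
    ENNReal.ofReal (a j * (KK j ^ (-(1 / p)) / 2)) ≤ rearr (opa p a i₀ (f0 n)) t := by
  unfold rearr
  apply le_sInf
  intro s hs
  by_contra h
  rw [not_le] at h
  have h1 := vol_lower' (n := n) ha0 i₀ j h
  have h2 : ENNReal.ofReal (KK j) ≤ ENNReal.ofReal t := h1.trans hs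
  have h3 : ENNReal.ofReal t < ENNReal.ofReal (KK j) :=
    (ENNReal.ofReal_lt_ofReal_iff (KK_pos j)).2 ht
  exact absurd h2 (not_le.2 h3)

/-- The lower bound for the Lorentz norms. -/
lemma lorentz_top' {p q : ℝ} (hp : 1 < p) (hq : 0 < q) {a : ℕ → ℝ} (ha0 : ∀ j, 0 ≤ a j)
    (hdiv : ∑' j, ENNReal.ofReal (a j) ^ q = ∞) (i₀ : Fin n) :
    lorentzNorm p q (opa p a i₀ (f0 n)) = ∞ := by
  have hp0 : 0 < p := by linarith
  unfold lorentzNorm
  set G : ℝ → ℝ≥0∞ := fun t => (ENNReal.ofReal (t ^ (1 / p)) * rearr (opa p a i₀ (f0 n)) t) ^ q *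
    ENNReal.ofReal (1 / t) with hG
  have hint : ∫⁻ t in Set.Ioi (0 : ℝ), G t = ∞ := by
    set s : ℕ → Set ℝ := fun j => Set.Ico (KK j / 2) (KK j) with hs
    have hsub : (⋃ j, s j) ⊆ Set.Ioi (0 : ℝ) := by
      intro t ht
      rw [Set.mem_iUnion] at ht
      obtain ⟨j, hj⟩ := ht
      have := KK_pos j
      have h2 := hj.1
      show 0 < t
      linarith
    have hdisj : Pairwise (Function.onFun Disjoint s) := by
      intro i j hij
      wlog h : i < j generalizing i j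
      · exact (this hij.symm (by omega)).symm
      rw [Function.onFun, Set.disjoint_left]
      intro t ht1 ht2
      have h1 := KK_growth' h
      have h2 := KK_pos i
      have h3 : (4 : ℝ) ≤ 4 ^ j := by
        calc (4 : ℝ) = 4 ^ 1 := by norm_num
          _ ≤ 4 ^ j := pow_le_pow_right₀ (by norm_num) (by omega)
      have h4 := ht1.2
      have h5 := ht2.1
      nlinarith
    have hlow : ∀ j, ENNReal.ofReal (a j) ^ q *
        (ENNReal.ofReal (1 / 4) ^ q * ENNReal.ofReal (1 / 2)) ≤ ∫⁻ t in s j, G t := by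
      intro j
      have hK := KK_pos j
      have h1 : ∀ t ∈ s j, ENNReal.ofReal (a j) ^ q *
          (ENNReal.ofReal (1 / 4) ^ q * ENNReal.ofReal (1 / KK j)) ≤ G t := by
        intro t ht
        have ht0 : 0 < t := by have := ht.1; linarith
        have h2 : ENNReal.ofReal (a j) * ENNReal.ofReal (1 / 4) ≤
            ENNReal.ofReal (t ^ (1 / p)) * rearr (opa p a i₀ (f0 n)) t := by
          refine le_trans ?_ (mul_le_mul_right (rearr_lower' ha0 i₀ j ht.2) _)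
          rw [← ENNReal.ofReal_mul (ha0 j), ← ENNReal.ofReal_mul (show 0 ≤ t ^ (1 / p) by positivity)]
          apply ENNReal.ofReal_le_ofReal
          have e1 : (KK j / 2) ^ (1 / p) ≤ t ^ (1 / p) :=
            Real.rpow_le_rpow (by positivity) ht.1 (by positivity)
          have e2 : (KK j / 2) ^ (1 / p) * KK j ^ (-(1 / p)) = (2 : ℝ) ^ (-(1 / p)) := by
            rw [Real.div_rpow hK.le (by norm_num), Real.rpow_neg hK.le, Real.rpow_neg (by norm_num)]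
            have : 0 < KK j ^ (1 / p) := by positivity
            field_simp
          have e3 : (1 : ℝ) / 2 ≤ (2 : ℝ) ^ (-(1 / p)) := by
            have h1p : 1 / p < 1 := by rw [div_lt_one hp0]; exact hp
            calc (1 : ℝ) / 2 = 2 ^ (-1 : ℝ) := by rw [Real.rpow_neg_one]; norm_num
              _ ≤ (2 : ℝ) ^ (-(1 / p)) :=
                Real.rpow_le_rpow_of_exponent_le (by norm_num) (by linarith)
          have e4 : 0 < KK j ^ (-(1 / p)) := by positivity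
          have e5 : (1 : ℝ) / 4 ≤ t ^ (1 / p) * (KK j ^ (-(1 / p)) / 2) := by
            calc (1 : ℝ) / 4 ≤ (2 : ℝ) ^ (-(1 / p)) / 2 := by linarith
              _ = (KK j / 2) ^ (1 / p) * (KK j ^ (-(1 / p)) / 2) := by rw [← e2]; ring
              _ ≤ _ := by gcongr
          calc a j * (1 / 4) ≤ a j * (t ^ (1 / p) * (KK j ^ (-(1 / p)) / 2)) :=
                mul_le_mul_of_nonneg_left e5 (ha0 j)
            _ = _ := by ring
        have h3 : ENNReal.ofReal (1 / KK j) ≤ ENNReal.ofReal (1 / t) := by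
          apply ENNReal.ofReal_le_ofReal
          exact one_div_le_one_div_of_le ht0 ht.2.le
        rw [← mul_assoc, ← ENNReal.mul_rpow_of_nonneg _ _ hq.le]
        exact mul_le_mul' (ENNReal.rpow_le_rpow h2 hq.le) h3
      calc ENNReal.ofReal (a j) ^ q * (ENNReal.ofReal (1 / 4) ^ q * ENNReal.ofReal (1 / 2))
          = ∫⁻ _ in s j, ENNReal.ofReal (a j) ^ q *
            (ENNReal.ofReal (1 / 4) ^ q * ENNReal.ofReal (1 / KK j)) := by
            rw [setLIntegral_const, hs]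
            simp only
            rw [Real.volume_Ico, mul_assoc, mul_assoc, ← ENNReal.ofReal_mul (by positivity)]
            congr 3
            field_simp
            ring
        _ ≤ ∫⁻ t in s j, G t := setLIntegral_mono' measurableSet_Ico h1
    have hsum : ∫⁻ t in ⋃ j, s j, G t = ∑' j, ∫⁻ t in s j, G t :=
      lintegral_iUnion (fun j => measurableSet_Ico) hdisj G
    have htop : ∑' j, ∫⁻ t in s j, G t = ∞ := by
      rw [← top_le_iff]
      calc (∞ : ℝ≥0∞) = ∑' j : ℕ, ENNReal.ofReal (a j) ^ q *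
          (ENNReal.ofReal (1 / 4) ^ q * ENNReal.ofReal (1 / 2)) := by
            rw [ENNReal.tsum_mul_right, hdiv, ENNReal.top_mul]
            apply mul_ne_zero
            · rw [ne_eq, ENNReal.rpow_eq_zero_iff]
              simp
            · simp
        _ ≤ _ := ENNReal.tsum_le_tsum hlow
    rw [← top_le_iff, ← htop, ← hsum]
    exact lintegral_mono_set hsub
  rw [hint, ENNReal.top_rpow_of_pos (by positivity)]

end Pool.Agent.Y858.RV
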