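import Mathlib
import Pool.Agent.Y858.RV.B

set_option autoImplicit false

/-!
# Lorentz norms from the distribution function, and the profile
-/

open Finset Complex MeasureTheory Set
open scoped ENNReal NNReal

namespace Pool.Agent.Y858.RV

open Pool.Agent.Results.MP_f2c8fe_an.RiviereFalse

/-- layer cake for a constant -/
lemma layer_fin {b r : ℝ} (hb : 0 ≤ b) (hr : 0 < r) :
    ∫⁻ t in Ioi (0 : ℝ), (if t < b then ENNReal.ofReal (r * t ^ (r - 1)) else 0) =
      ENNReal.ofReal (b ^ r) := by
  have h := lintegral_rpow_eq_lintegral_meas_lt_mul (Measure.dirac (0 : ℝ)) (f := fun _ => b)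
    (Filter.Eventually.of_forall fun _ => hb) (by fun_prop) hr
  rw [lintegral_dirac] at h
  rw [h, ← lintegral_const_mul' _ _ ENNReal.ofReal_ne_top]
  refine setLIntegral_congr_fun measurableSet_Ioi fun t ht => ?_
  have ht' : (0 : ℝ) < t := ht
  by_cases htb : t < b
  · simp only [htb, if_true]
    rw [show ({a : ℝ | True} : Set ℝ) = Set.univ by ext; simp, measure_univ, one_mul,
      ENNReal.ofReal_mul hr.le]
  · simp only [htb, if_false]
    rw [show ({a : ℝ | False} : Set ℝ) = ∅ by ext; simp, measure_empty, zero_mul, mul_zero]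

/-- layer cake for a constant -/
lemma layer {r : ℝ} (hr : 0 < r) (s : ℝ≥0∞) :
    ∫⁻ t in Ioi (0 : ℝ), (if ENNReal.ofReal t < s then ENNReal.ofReal (r * t ^ (r - 1)) else 0) =
      s ^ r := by
  by_cases hs : s = ∞
  · subst hs
    rw [ENNReal.top_rpow_of_pos hr]
    simp only [ENNReal.ofReal_lt_top, if_true]
    rw [← top_le_iff]
    apply le_of_forall_lt
    intro c hc
    obtain ⟨c', hc'⟩ : ∃ c' : ℝ≥0, c = c' := ⟨c.toNNReal, (ENNReal.coe_toNNReal hc.ne).symm⟩
    have h1 := layer_fin (b := ((c' : ℝ) + 1) ^ (1 / r)) (r := r) (by positivity) hr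
    have h2 : (((c' : ℝ) + 1) ^ (1 / r)) ^ r = (c' : ℝ) + 1 := by
      rw [← Real.rpow_mul (by positivity), one_div_mul_cancel hr.ne', Real.rpow_one]
    rw [h2] at h1
    have h3 : c < ENNReal.ofReal ((c' : ℝ) + 1) := by
      rw [hc', ← ENNReal.ofReal_coe_nnreal]
      exact (ENNReal.ofReal_lt_ofReal_iff (by positivity)).2 (by linarith)
    refine lt_of_lt_of_le h3 ?_
    rw [← h1]
    refine lintegral_mono fun t => ?_
    split_ifs
    · exact le_rfl
    · exact zero_le
  · have h1 := layer_fin (b := s.toReal) (r := r) ENNReal.toReal_nonneg hr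
    have h2 : ENNReal.ofReal (s.toReal ^ r) = s ^ r := by
      rw [← ENNReal.ofReal_rpow_of_nonneg ENNReal.toReal_nonneg hr.le, ENNReal.ofReal_toReal hs]
    rw [← h2, ← h1]
    refine setLIntegral_congr_fun measurableSet_Ioi fun t ht => ?_
    have ht' : (0 : ℝ) < t := ht
    have h3 : ENNReal.ofReal t < s ↔ t < s.toReal := ENNReal.ofReal_lt_iff_lt_toReal ht'.le hs
    simp only [h3]

variable {n : ℕ}

/-- The Lorentz norm is controlled by the distribution function. -/
lemma lorentz_le {p q : ℝ} (hp : 0 < p) (hq : 0 < q) (g : (Fin n → ℝ) → ℂ) (D : ℝ → ℝ≥0∞)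
    (hDm : Measurable D)
    (hD : ∀ lam : ℝ, 0 < lam → volume {x | ENNReal.ofReal lam < ‖g x‖ₑ} ≤ D lam) :
    lorentzNorm p q g ≤ (∫⁻ lam in Ioi (0 : ℝ),
      ENNReal.ofReal (p * lam ^ (q - 1)) * D lam ^ (q / p)) ^ (1 / q) := by
  have hqp : 0 < q / p := by positivity
  unfold lorentzNorm
  refine ENNReal.rpow_le_rpow ?_ (by positivity)
  set F : ℝ → ℝ → ℝ≥0∞ := fun t lam => if ENNReal.ofReal t < D lam then
    ENNReal.ofReal (t ^ (q / p - 1)) * ENNReal.ofReal (q * lam ^ (q - 1)) else 0 with hF
  have hFm : Measurable (Function.uncurry F) := by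
    rw [hF]
    refine Measurable.ite ?_ ?_ measurable_const
    · exact measurableSet_lt (ENNReal.measurable_ofReal.comp measurable_fst)
        (hDm.comp measurable_snd)
    · fun_prop
  calc ∫⁻ t in Ioi (0 : ℝ), (ENNReal.ofReal (t ^ (1 / p)) * rearr g t) ^ q * ENNReal.ofReal (1 / t)
      ≤ ∫⁻ t in Ioi (0 : ℝ), ∫⁻ lam in Ioi (0 : ℝ), F t lam := by
        refine setLIntegral_mono' measurableSet_Ioi fun t ht => ?_
        have ht' : (0 : ℝ) < t := ht
        have e1 : (ENNReal.ofReal (t ^ (1 / p)) * rearr g t) ^ q * ENNReal.ofReal (1 / t) =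
            ENNReal.ofReal (t ^ (q / p - 1)) * rearr g t ^ q := by
          rw [ENNReal.mul_rpow_of_nonneg _ _ hq.le, ENNReal.ofReal_rpow_of_nonneg (by positivity)
            hq.le, ← Real.rpow_mul ht'.le, mul_right_comm, ← ENNReal.ofReal_mul (by positivity)]
          congr 2
          rw [Real.rpow_sub ht', Real.rpow_one]
          rw [show 1 / p * q = q / p by ring]
          ring
        rw [e1, ← layer hq (rearr g t), ← lintegral_const_mul' _ _ ENNReal.ofReal_ne_top]
        refine setLIntegral_mono' measurableSet_Ioi fun lam hlam => ?_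
        have hlam' : (0 : ℝ) < lam := hlam
        rw [hF]
        simp only
        by_cases h1 : ENNReal.ofReal lam < rearr g t
        · have h2 : ENNReal.ofReal t < D lam := by
            by_contra h3
            rw [not_lt] at h3
            have h4 : rearr g t ≤ ENNReal.ofReal lam := sInf_le ((hD lam hlam').trans h3)
            exact absurd h1 (not_lt.2 h4)
          rw [if_pos h1, if_pos h2]
        · rw [if_neg h1, mul_zero]
          exact zero_le
    _ = ∫⁻ lam in Ioi (0 : ℝ), ∫⁻ t in Ioi (0 : ℝ), F t lam :=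
        lintegral_lintegral_swap hFm.aemeasurable
    _ = ∫⁻ lam in Ioi (0 : ℝ), ENNReal.ofReal (p * lam ^ (q - 1)) * D lam ^ (q / p) := by
        refine setLIntegral_congr_fun measurableSet_Ioi fun lam hlam => ?_
        have hlam' : (0 : ℝ) < lam := hlam
        rw [← layer hqp (D lam), ← lintegral_const_mul' _ _ ENNReal.ofReal_ne_top]
        refine setLIntegral_congr_fun measurableSet_Ioi fun t ht => ?_
        have ht' : (0 : ℝ) < t := ht
        rw [hF]
        simp only
        split_ifs
        · rw [← ENNReal.ofReal_mul (by positivity), ← ENNReal.ofReal_mul (by positivity)]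
          congr 1
          field_simp
        · rw [mul_zero]

/-! ### The profile -/

/-- the profile function -/
noncomputable def hh (p κ w : ℝ) : ℝ := κ * min 1 ((w / κ) ^ (1 + ep p))

lemma hh_nonneg (p : ℝ) {κ w : ℝ} (hκ : 0 < κ) (hw : 0 ≤ w) : 0 ≤ hh p κ w := by
  unfold hh
  have : 0 ≤ min 1 ((w / κ) ^ (1 + ep p)) := le_min (by norm_num) (by positivity)
  positivity

lemma hh_le_left (p : ℝ) {κ w : ℝ} (hκ : 0 < κ) : hh p κ w ≤ κ := by
  unfold hh
  exact mul_le_of_le_one_right hκ.le (min_le_left _ _)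

lemma hh_le_right {p : ℝ} (hp : 0 < p) (hp2 : p < 2) {κ w : ℝ} (hκ : 0 < κ) (hw : 0 ≤ w) :
    hh p κ w ≤ w * (w / κ) ^ (ep p) := by
  have he := ep_pos hp hp2
  unfold hh
  refine (mul_le_mul_of_nonneg_left (min_le_right _ _) hκ.le).trans (le_of_eq ?_)
  rw [Real.rpow_add_of_nonneg (by positivity) (by norm_num) he.le, Real.rpow_one]
  field_simp

lemma psi_eq {p : ℝ} (j : ℕ) {a y lam : ℝ} (ha : 0 < a) (hy : 0 ≤ y)
    (hlam : 0 < lam) :
    psi p j (a * y / lam) =
      C1 p * lam ^ (-p) * (a ^ p * hh p (lam ^ p * KK j / a ^ p) (y ^ p)) := by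
  have hK := KK_pos j
  unfold psi hh
  have h1 : (a * y / lam) ^ p / KK j = y ^ p / (lam ^ p * KK j / a ^ p) := by
    rw [Real.div_rpow (by positivity) hlam.le, Real.mul_rpow ha.le hy]
    have : 0 < lam ^ p := by positivity
    have : 0 < a ^ p := by positivity
    field_simp
  rw [h1, Real.rpow_neg hlam.le]
  have : 0 < lam ^ p := by positivity
  have : 0 < a ^ p := by positivity
  field_simp

lemma sum_four {κ : ℕ → ℝ} (hκ : ∀ j, 0 < κ j) (h4 : ∀ j, 4 * κ j ≤ κ (j + 1)) {w : ℝ}
    (hw : 0 ≤ w) (J : ℕ) : ∑ j ∈ range J, (if κ j ≤ w then κ j else 0) ≤ 2 * w := by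
  have hs : ∀ J, ∑ j ∈ range J, κ j ≤ κ J := by
    intro J
    induction J with
    | zero => simpa using (hκ 0).le
    | succ m ih =>
      rw [Finset.sum_range_succ]
      have := h4 m
      have := hκ m
      linarith
  induction J with
  | zero => simpa using hw
  | succ m ih =>
    rw [Finset.sum_range_succ]
    split_ifs with h
    · have h1 : ∑ j ∈ range m, (if κ j ≤ w then κ j else 0) ≤ ∑ j ∈ range m, κ j := by
        refine Finset.sum_le_sum fun j _ => ?_
        split_ifs
        · exact le_rfl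
        · exact (hκ j).le
      have := hs m
      linarith
    · linarith

lemma sum_tail {p : ℝ} (hp : 0 < p) (hp2 : p < 2) {κ : ℕ → ℝ} (hκ : ∀ j, 0 < κ j)
    (h4 : ∀ j, 4 * κ j ≤ κ (j + 1)) {w : ℝ} (hw : 0 ≤ w) (J : ℕ) :
    ∑ j ∈ range J, (if κ j ≤ w then 0 else (w / κ j) ^ (ep p)) ≤ 1 / (1 - rho p) := by
  have he := ep_pos hp hp2
  have hr0 := rho_pos p
  have hr1 := rho_lt_one hp hp2
  have hr : rho p = (4 : ℝ) ^ (-(ep p)) := by
    have := rho_eq p 1
    rw [pow_one, pow_one] at this
    exact this.symm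
  have key : ∀ J, ∑ j ∈ range J, (if κ j ≤ w then 0 else (w / κ j) ^ (ep p)) +
      1 / (1 - rho p) * (if w < κ J then (w / κ J) ^ (ep p) else 1) ≤ 1 / (1 - rho p) := by
    intro J
    induction J with
    | zero =>
      rw [Finset.range_zero, Finset.sum_empty, zero_add]
      apply mul_le_of_le_one_right (by apply div_nonneg <;> linarith)
      split_ifs with h
      · apply Real.rpow_le_one (div_nonneg hw (hκ 0).le) _ he.le
        rw [div_le_one (hκ 0)]; exact h.le
      · exact le_rfl
    | succ m ih =>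
      rw [Finset.sum_range_succ]
      by_cases h : κ m ≤ w
      · rw [if_pos h, add_zero]
        rw [if_neg (not_lt.2 h)] at ih
        refine le_trans ?_ ih
        gcongr
        split_ifs with h1
        · apply Real.rpow_le_one (div_nonneg hw (hκ _).le) _ he.le
          rw [div_le_one (hκ _)]; exact h1.le
        · exact le_rfl
      · rw [if_neg h]
        have h' := not_le.1 h
        rw [if_pos h'] at ih
        have h5 := h4 m
        have hm := hκ m
        have hm1 := hκ (m + 1)
        have h6 : w < κ (m + 1) := by linarith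
        rw [if_pos h6]
        have h7 : (w / κ (m + 1)) ^ (ep p) ≤ rho p * (w / κ m) ^ (ep p) := by
          rw [hr, Real.rpow_neg (by norm_num), ← Real.inv_rpow (by norm_num),
            ← Real.mul_rpow (by norm_num) (by positivity)]
          refine Real.rpow_le_rpow (by positivity) ?_ he.le
          rw [div_le_iff₀ hm1]
          have : 4⁻¹ * (w / κ m) * κ (m + 1) = w * (κ (m + 1) / (4 * κ m)) := by
            field_simp
          rw [this]
          apply le_mul_of_one_le_right hw
          rw [one_le_div (by positivity)]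
          exact h5
        have h8 : 0 ≤ 1 / (1 - rho p) := by apply div_nonneg <;> linarith
        have h9 : 1 / (1 - rho p) * (w / κ (m + 1)) ^ (ep p) ≤
            1 / (1 - rho p) * (rho p * (w / κ m) ^ (ep p)) := mul_le_mul_of_nonneg_left h7 h8
        have h10 : (w / κ m) ^ (ep p) + 1 / (1 - rho p) * (rho p * (w / κ m) ^ (ep p)) =
            1 / (1 - rho p) * (w / κ m) ^ (ep p) := by
          have : 1 - rho p ≠ 0 := by linarith
          field_simp
          ring
        linarith
  have h := key J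
  have h8 : 0 ≤ 1 / (1 - rho p) * (if w < κ J then (w / κ J) ^ (ep p) else 1) := by
    apply mul_nonneg (by apply div_nonneg <;> linarith)
    split_ifs
    · have := hκ J; positivity
    · exact zero_le_one
  linarith

/-- the constant -/
noncomputable def C3 (p : ℝ) : ℝ := 2 + 1 / (1 - rho p)

lemma C3_pos {p : ℝ} (hp : 0 < p) (hp2 : p < 2) : 0 < C3 p := by
  have := rho_lt_one hp hp2
  unfold C3
  have : 0 ≤ 1 / (1 - rho p) := div_nonneg (by norm_num) (by linarith)
  linarith

lemma sum_hh {p : ℝ} (hp : 0 < p) (hp2 : p < 2) {κ : ℕ → ℝ} (hκ : ∀ j, 0 < κ j)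
    (h4 : ∀ j, 4 * κ j ≤ κ (j + 1)) {w : ℝ} (hw : 0 ≤ w) (J : ℕ) :
    ∑ j ∈ range J, hh p (κ j) w ≤ C3 p * w := by
  have h1 := sum_four hκ h4 hw J
  have h2 := sum_tail hp hp2 hκ h4 hw J
  have h3 : ∑ j ∈ range J, hh p (κ j) w ≤ ∑ j ∈ range J, ((if κ j ≤ w then κ j else 0) +
      w * (if κ j ≤ w then 0 else (w / κ j) ^ (ep p))) := by
    refine Finset.sum_le_sum fun j _ => ?_
    by_cases h : κ j ≤ w
    · rw [if_pos h, if_pos h, mul_zero, add_zero]
      exact hh_le_left p (hκ j)
    · rw [if_neg h, if_neg h, zero_add]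
      exact hh_le_right hp hp2 (hκ j) hw
  rw [Finset.sum_add_distrib, ← Finset.mul_sum] at h3
  have h4 := mul_le_mul_of_nonneg_left h2 hw
  unfold C3
  linarith

/-- the constant -/
noncomputable def C4 (p : ℝ) : ℝ := 1 / p + 1 / (p * ep p)

lemma C4_pos {p : ℝ} (hp : 0 < p) (hp2 : p < 2) : 0 < C4 p := by
  have := ep_pos hp hp2
  unfold C4
  positivity

/-- the logarithmic integral of the profile -/
lemma int_hh {p : ℝ} (hp : 0 < p) (hp2 : p < 2) {c w : ℝ} (hc : 0 < c) (hw : 0 ≤ w) :
    ∫⁻ lam in Ioi (0 : ℝ), ENNReal.ofReal (lam⁻¹ * hh p (lam ^ p * c) w) ≤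
      ENNReal.ofReal (C4 p * w) := by
  have he := ep_pos hp hp2
  rcases hw.eq_or_lt with rfl | hw0
  · have : ∀ lam ∈ Ioi (0 : ℝ), ENNReal.ofReal (lam⁻¹ * hh p (lam ^ p * c) 0) = 0 := by
      intro lam _
      unfold hh
      rw [zero_div, Real.zero_rpow (by linarith), min_eq_right zero_le_one, mul_zero, mul_zero,
        ENNReal.ofReal_zero]
    rw [setLIntegral_congr_fun measurableSet_Ioi this]
    simp
  set L : ℝ := (w / c) ^ (1 / p) with hL
  have hL0 : 0 < L := by positivity
  have hLp : L ^ p = w / c := by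
    rw [hL, ← Real.rpow_mul (by positivity), one_div_mul_cancel hp.ne', Real.rpow_one]
  -- the first part
  have h1 : ∫⁻ lam in Ioi (0 : ℝ), (if lam < L then ENNReal.ofReal (c / p) *
      ENNReal.ofReal (p * lam ^ (p - 1)) else 0) = ENNReal.ofReal (w / p) := by
    have h2 := layer_fin (b := L) (r := p) hL0.le hp
    have h3 : ∀ lam : ℝ, (if lam < L then ENNReal.ofReal (c / p) *
      ENNReal.ofReal (p * lam ^ (p - 1)) else 0) = ENNReal.ofReal (c / p) *
        (if lam < L then ENNReal.ofReal (p * lam ^ (p - 1)) else 0) := by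
      intro lam
      split_ifs
      · rfl
      · rw [mul_zero]
    simp_rw [h3]
    rw [lintegral_const_mul' _ _ ENNReal.ofReal_ne_top, h2, hLp, ← ENNReal.ofReal_mul (by positivity)]
    congr 1
    field_simp
  -- the tail
  have h4 : ∫⁻ lam in Ioi L, ENNReal.ofReal (w * (w / c) ^ (ep p) * lam ^ (-(p * ep p) - 1)) =
      ENNReal.ofReal (w / (p * ep p)) := by
    have hlt : -(p * ep p) - 1 < -1 := by
      have : 0 < p * ep p := by positivity
      linarith
    have h5 := integral_Ioi_rpow_of_lt hlt hL0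
    have h6 := integrableOn_Ioi_rpow_of_lt hlt hL0
    rw [← ofReal_integral_eq_lintegral_ofReal]
    · rw [integral_const_mul, h5]
      congr 1
      have h7 : L ^ (-(p * ep p) - 1 + 1) = ((w / c) ^ (ep p))⁻¹ := by
        rw [sub_add_cancel, ← mul_neg, Real.rpow_mul hL0.le, hLp, Real.rpow_neg (by positivity)]
      rw [h7, sub_add_cancel]
      have : 0 < (w / c) ^ (ep p) := by positivity
      field_simp
    · exact h6.const_mul _
    · rw [Filter.EventuallyLE, ae_restrict_iff' measurableSet_Ioi]
      refine Filter.Eventually.of_forall fun lam hlam => ?_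
      have hlam' : L < lam := hlam
      have : 0 < lam := by linarith
      show (0 : ℝ) ≤ _
      positivity
  calc ∫⁻ lam in Ioi (0 : ℝ), ENNReal.ofReal (lam⁻¹ * hh p (lam ^ p * c) w)
      ≤ ∫⁻ lam in Ioi (0 : ℝ), ((if lam < L then ENNReal.ofReal (c / p) *
          ENNReal.ofReal (p * lam ^ (p - 1)) else 0) +
          (Ici L).indicator (fun lam => ENNReal.ofReal (w * (w / c) ^ (ep p) *
            lam ^ (-(p * ep p) - 1))) lam) := by
        refine setLIntegral_mono' measurableSet_Ioi fun lam hlam => ?_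
        have hlam' : (0 : ℝ) < lam := hlam
        by_cases h : lam < L
        · rw [if_pos h]
          refine le_trans ?_ le_self_add
          rw [← ENNReal.ofReal_mul (by positivity)]
          apply ENNReal.ofReal_le_ofReal
          have := hh_le_left p (w := w) (show 0 < lam ^ p * c by positivity)
          calc lam⁻¹ * hh p (lam ^ p * c) w ≤ lam⁻¹ * (lam ^ p * c) := by gcongr
            _ = c / p * (p * lam ^ (p - 1)) := by
              rw [Real.rpow_sub hlam', Real.rpow_one]
              field_simp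
        · rw [if_neg h, zero_add, Set.indicator_of_mem (show lam ∈ Ici L from not_lt.1 h)]
          apply ENNReal.ofReal_le_ofReal
          have h8 := hh_le_right hp hp2 (show 0 < lam ^ p * c by positivity) hw0.le
          calc lam⁻¹ * hh p (lam ^ p * c) w ≤
              lam⁻¹ * (w * (w / (lam ^ p * c)) ^ (ep p)) := by gcongr
            _ = w * (w / c) ^ (ep p) * lam ^ (-(p * ep p) - 1) := by
              have h9 : w / (lam ^ p * c) = (w / c) / lam ^ p := by field_simp
              rw [h9, Real.div_rpow (by positivity) (by positivity), ← Real.rpow_mul hlam'.le,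
                Real.rpow_sub hlam', Real.rpow_neg hlam'.le, Real.rpow_one]
              field_simp
    _ = ENNReal.ofReal (w / p) + ENNReal.ofReal (w / (p * ep p)) := by
        rw [lintegral_add_left]
        · rw [h1, lintegral_indicator measurableSet_Ici, Measure.restrict_restrict measurableSet_Ici]
          have h10 : Ici L ∩ Ioi (0 : ℝ) = Ici L := by
            ext y
            simp only [Set.mem_inter_iff, Set.mem_Ici, Set.mem_Ioi, and_iff_left_iff_imp]
            intro hy
            linarith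
          rw [h10, setLIntegral_congr Ioi_ae_eq_Ici.symm, h4]
        · refine Measurable.ite measurableSet_Iio ?_ measurable_const
          fun_prop
    _ = ENNReal.ofReal (C4 p * w) := by
        rw [← ENNReal.ofReal_add (by positivity) (by positivity)]
        congr 1
        unfold C4
        field_simp

/-- Jensen's inequality for series -/
lemma jensen {r : ℝ} (hr : 1 ≤ r) (b A : ℕ → ℝ≥0∞) :
    (∑' j, A j * b j) ^ r ≤ (∑' j, A j) ^ (r - 1) * ∑' j, A j * b j ^ r := by
  have hr0 : 0 < r := by linarith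
  have h1 : ∀ J : ℕ, ∑ j ∈ range J, A j * b j ≤
      ((∑' j, A j) ^ (r - 1) * ∑' j, A j * b j ^ r) ^ (r⁻¹) := by
    intro J
    have h2 := ENNReal.inner_le_weight_mul_Lp_of_nonneg (range J) hr A b
    refine h2.trans ?_
    have h3 : ((∑' j, A j) ^ (r - 1)) ^ (r⁻¹) = (∑' j, A j) ^ (1 - r⁻¹) := by
      rw [← ENNReal.rpow_mul]
      congr 1
      field_simp
    rw [ENNReal.mul_rpow_of_nonneg _ _ (by positivity), h3]
    have h4 : r⁻¹ ≤ 1 := inv_le_one_of_one_le₀ hr
    refine mul_le_mul' (ENNReal.rpow_le_rpow (ENNReal.sum_le_tsum _) (by linarith))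
      (ENNReal.rpow_le_rpow (ENNReal.sum_le_tsum _) (by positivity))
  have h5 : ∑' j, A j * b j ≤ ((∑' j, A j) ^ (r - 1) * ∑' j, A j * b j ^ r) ^ (r⁻¹) := by
    rw [ENNReal.tsum_eq_iSup_nat]
    exact iSup_le h1
  calc (∑' j, A j * b j) ^ r ≤ (((∑' j, A j) ^ (r - 1) * ∑' j, A j * b j ^ r) ^ (r⁻¹)) ^ r :=
        ENNReal.rpow_le_rpow h5 hr0.le
    _ = _ := by rw [← ENNReal.rpow_mul, inv_mul_cancel₀ hr0.ne', ENNReal.rpow_one]

end Pool.Agent.Y858.RV
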