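import Mathlib
import Pool.Agent.Y858.RV.C

set_option autoImplicit false

/-!
# Boundedness of `T_a` from `L^p` to `L^{p,q}`
-/

open Finset Complex MeasureTheory Set
open scoped ENNReal NNReal

namespace Pool.Agent.Y858.RV

open Pool.Agent.Results.MP_f2c8fe_an.RiviereFalse

variable {n : ℕ}

/-- one term -/
noncomputable def AA (p : ℝ) (a : ℕ → ℝ) (f : (Fin n → ℝ) → ℂ) (j : ℕ) (lam : ℝ) : ℝ≥0∞ :=
  ∫⁻ x, ENNReal.ofReal (hh p (lam ^ p * (KK j / a j ^ p)) (‖f x‖ ^ p))

/-- the majorant of the distribution function -/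
noncomputable def DD (p : ℝ) (a : ℕ → ℝ) (f : (Fin n → ℝ) → ℂ) (lam : ℝ) : ℝ≥0∞ :=
  ∑' j, ∫⁻ x, ENNReal.ofReal (psi p j (a j * ‖f x‖ / lam))

lemma hh_meas (p : ℝ) : Measurable fun z : ℝ × ℝ => hh p z.1 z.2 := by
  unfold hh
  fun_prop

lemma DD_meas (p : ℝ) (a : ℕ → ℝ) {f : (Fin n → ℝ) → ℂ} (hf : Measurable f) :
    Measurable (DD p a f) := by
  unfold DD
  refine Measurable.tsum fun j => ?_
  have h : Measurable fun z : ℝ × (Fin n → ℝ) =>
      ENNReal.ofReal (psi p j (a j * ‖f z.2‖ / z.1)) := by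
    refine ENNReal.measurable_ofReal.comp ((psi_meas p j).comp ?_)
    exact ((hf.comp measurable_snd).norm.const_mul _).div measurable_fst
  exact h.lintegral_prod_right'

lemma AAint_meas (p : ℝ) (a : ℕ → ℝ) {f : (Fin n → ℝ) → ℂ} (hf : Measurable f) (j : ℕ) :
    Measurable fun z : ℝ × (Fin n → ℝ) =>
      ENNReal.ofReal (hh p (z.1 ^ p * (KK j / a j ^ p)) (‖f z.2‖ ^ p)) := by
  refine ENNReal.measurable_ofReal.comp ((hh_meas p).comp (Measurable.prodMk ?_ ?_))
  · exact (measurable_fst.pow_const p).mul_const _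
  · exact (hf.comp measurable_snd).norm.pow_const p

lemma AA_meas (p : ℝ) (a : ℕ → ℝ) {f : (Fin n → ℝ) → ℂ} (hf : Measurable f) (j : ℕ) :
    Measurable (AA p a f j) := (AAint_meas p a hf j).lintegral_prod_right'

lemma kap_four {p : ℝ} (hp : 0 < p) {a : ℕ → ℝ} (ha : ∀ j, 0 < a j) (hanti : Antitone a)
    {lam : ℝ} (hlam : 0 < lam) (j : ℕ) :
    4 * (lam ^ p * (KK j / a j ^ p)) ≤ lam ^ p * (KK (j + 1) / a (j + 1) ^ p) := by
  have hK := KK_pos j
  have hK1 := KK_growth j
  have h4 : (4 : ℝ) ≤ 4 ^ (j + 1) := by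
    calc (4 : ℝ) = 4 ^ 1 := by norm_num
      _ ≤ 4 ^ (j + 1) := pow_le_pow_right₀ (by norm_num) (by omega)
  have h5 : 4 * KK j ≤ KK (j + 1) := by nlinarith
  have h6 : a (j + 1) ^ p ≤ a j ^ p := Real.rpow_le_rpow (ha _).le (hanti (Nat.le_succ j)) hp.le
  have h7 : 0 < a (j + 1) ^ p := Real.rpow_pos_of_pos (ha _) p
  have h8 : 4 * (KK j / a j ^ p) ≤ KK (j + 1) / a (j + 1) ^ p := by
    calc 4 * (KK j / a j ^ p) = (4 * KK j) / a j ^ p := by ring
      _ ≤ (4 * KK j) / a (j + 1) ^ p := div_le_div_of_nonneg_left (by positivity) h7 h6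
      _ ≤ _ := div_le_div_of_nonneg_right h5 h7.le
  calc 4 * (lam ^ p * (KK j / a j ^ p)) = lam ^ p * (4 * (KK j / a j ^ p)) := by ring
    _ ≤ _ := mul_le_mul_of_nonneg_left h8 (by positivity)

lemma AA_sum {p : ℝ} (hp : 1 < p) (hp2 : p < 2) {a : ℕ → ℝ} (ha : ∀ j, 0 < a j)
    (hanti : Antitone a) {f : (Fin n → ℝ) → ℂ} (hf : Measurable f) {lam : ℝ} (hlam : 0 < lam) :
    ∑' j, AA p a f j lam ≤ ENNReal.ofReal (C3 p) * ∫⁻ x, ‖f x‖ₑ ^ p := by
  have hp0 : 0 < p := by linarith
  have hC := C3_pos hp0 hp2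
  have hm : ∀ j, Measurable fun x : Fin n → ℝ =>
      ENNReal.ofReal (hh p (lam ^ p * (KK j / a j ^ p)) (‖f x‖ ^ p)) := fun j =>
    (AAint_meas p a hf j).comp (measurable_const.prodMk measurable_id : Measurable
      fun x : Fin n → ℝ => ((lam, x) : ℝ × (Fin n → ℝ)))
  unfold AA
  rw [← lintegral_tsum (fun j => (hm j).aemeasurable),
    ← lintegral_const_mul' _ _ ENNReal.ofReal_ne_top]
  refine lintegral_mono fun x => ?_
  rw [ENNReal.tsum_eq_iSup_nat]
  refine iSup_le fun J => ?_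
  have hw : 0 ≤ ‖f x‖ ^ p := by positivity
  have hκ : ∀ j, 0 < lam ^ p * (KK j / a j ^ p) := fun j => by
    have := KK_pos j
    have := ha j
    positivity
  rw [← ENNReal.ofReal_sum_of_nonneg (fun j _ => hh_nonneg p (hκ j) hw)]
  calc ENNReal.ofReal (∑ j ∈ range J, hh p (lam ^ p * (KK j / a j ^ p)) (‖f x‖ ^ p))
      ≤ ENNReal.ofReal (C3 p * ‖f x‖ ^ p) :=
        ENNReal.ofReal_le_ofReal (sum_hh hp0 hp2 hκ (kap_four hp0 ha hanti hlam) hw J)
    _ = _ := by
        rw [ENNReal.ofReal_mul hC.le, ← ENNReal.ofReal_rpow_of_nonneg (norm_nonneg _) hp0.le,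
          ofReal_norm]

lemma AA_int {p : ℝ} (hp : 1 < p) (hp2 : p < 2) {a : ℕ → ℝ} (ha : ∀ j, 0 < a j)
    {f : (Fin n → ℝ) → ℂ} (hf : Measurable f) (j : ℕ) :
    ∫⁻ lam in Ioi (0 : ℝ), ENNReal.ofReal lam⁻¹ * AA p a f j lam ≤
      ENNReal.ofReal (C4 p) * ∫⁻ x, ‖f x‖ₑ ^ p := by
  have hp0 : 0 < p := by linarith
  have hC := C4_pos hp0 hp2
  have hK := KK_pos j
  have haj := ha j
  have h1 : ∫⁻ lam in Ioi (0 : ℝ), ENNReal.ofReal lam⁻¹ * AA p a f j lam =
      ∫⁻ lam in Ioi (0 : ℝ), ∫⁻ x, ENNReal.ofReal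
        (lam⁻¹ * hh p (lam ^ p * (KK j / a j ^ p)) (‖f x‖ ^ p)) := by
    refine setLIntegral_congr_fun measurableSet_Ioi fun lam hlam => ?_
    have hlam' : (0 : ℝ) < lam := hlam
    unfold AA
    rw [← lintegral_const_mul' _ _ ENNReal.ofReal_ne_top]
    refine lintegral_congr fun x => ?_
    rw [ENNReal.ofReal_mul (by positivity)]
  rw [h1, lintegral_lintegral_swap, ← lintegral_const_mul' _ _ ENNReal.ofReal_ne_top]
  · refine lintegral_mono fun x => ?_
    refine (int_hh hp0 hp2 (by positivity) (by positivity)).trans (le_of_eq ?_)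
    rw [ENNReal.ofReal_mul hC.le, ← ENNReal.ofReal_rpow_of_nonneg (norm_nonneg _) hp0.le,
      ofReal_norm]
  · refine Measurable.aemeasurable ?_
    refine ENNReal.measurable_ofReal.comp (Measurable.mul measurable_fst.inv ?_)
    refine (hh_meas p).comp (Measurable.prodMk ?_ ?_)
    · exact (measurable_fst.pow_const p).mul_const _
    · exact (hf.comp measurable_snd).norm.pow_const p

lemma DD_eq {p : ℝ} (hp : 1 < p) (hp2 : p < 2) {a : ℕ → ℝ} (ha : ∀ j, 0 < a j)
    (f : (Fin n → ℝ) → ℂ) {lam : ℝ} (hlam : 0 < lam) :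
    DD p a f lam = ENNReal.ofReal (C1 p * lam ^ (-p)) *
      ∑' j, AA p a f j lam * ENNReal.ofReal (a j ^ p) := by
  have hp0 : 0 < p := by linarith
  have hC := C1_ge hp0 hp2
  unfold DD
  rw [← ENNReal.tsum_mul_left]
  refine tsum_congr fun j => ?_
  unfold AA
  rw [mul_comm (∫⁻ x, _) _, ← lintegral_const_mul' _ _ ENNReal.ofReal_ne_top,
    ← lintegral_const_mul' _ _ ENNReal.ofReal_ne_top]
  refine lintegral_congr fun x => ?_
  have haj := ha j
  have hC0 : 0 ≤ C1 p := by linarith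
  rw [psi_eq j (ha j) (norm_nonneg _) hlam,
    ENNReal.ofReal_mul (show 0 ≤ C1 p * lam ^ (-p) by positivity),
    ENNReal.ofReal_mul (show 0 ≤ a j ^ p by positivity), mul_div_assoc]

/-- The main estimate: `T_a` maps `L^p` into `L^{p,q}` if `a` is `q`-summable. -/
theorem lorentz_bound {p q : ℝ} (hp : 1 < p) (hp2 : p < 2) (hpq : p ≤ q) {a : ℕ → ℝ}
    (ha : ∀ j, 0 < a j) (ha1 : ∀ j, a j ≤ 1) (hanti : Antitone a) (i₀ : Fin n)
    {f : (Fin n → ℝ) → ℂ} (hf : Measurable f) (hfin : ∫⁻ x, ‖f x‖ₑ ^ p ≠ ∞) :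
    lorentzNorm p q (opa p a i₀ f) ≤
      (ENNReal.ofReal (p * C1 p ^ (q / p) * C3 p ^ (q / p - 1) * C4 p) *
        ∑' j, ENNReal.ofReal (a j) ^ q) ^ (1 / q) * eLpNorm f (ENNReal.ofReal p) volume := by
  have hp0 : 0 < p := by linarith
  have hq0 : 0 < q := by linarith
  have hr : 1 ≤ q / p := by rw [one_le_div hp0]; exact hpq
  have hr0 : 0 < q / p := by positivity
  have hC1 := C1_ge hp0 hp2
  have hC1' : 0 ≤ C1 p := by linarith
  have hC3 := C3_pos hp0 hp2
  have hC4 := C4_pos hp0 hp2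
  set F : ℝ≥0∞ := ∫⁻ x, ‖f x‖ₑ ^ p with hF
  set r : ℝ := q / p with hrdef
  have h0 := lorentz_le hp0 hq0 (opa p a i₀ f) (DD p a f) (DD_meas p a hf)
    (fun lam hlam => dist_est hp hp2 (fun j => (ha j).le) ha1 i₀ hf hfin hlam)
  have hpow : ∀ j, ENNReal.ofReal (a j ^ p) ^ r = ENNReal.ofReal (a j) ^ q := by
    intro j
    rw [← ENNReal.ofReal_rpow_of_nonneg (ha j).le hp0.le, ← ENNReal.rpow_mul]
    congr 1
    rw [hrdef]
    field_simp
  have h1 : ∀ lam ∈ Ioi (0 : ℝ), ENNReal.ofReal (p * lam ^ (q - 1)) * DD p a f lam ^ r ≤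
      ENNReal.ofReal (p * C1 p ^ r) * (ENNReal.ofReal (C3 p) * F) ^ (r - 1) *
        ∑' j, ENNReal.ofReal (a j) ^ q * (ENNReal.ofReal lam⁻¹ * AA p a f j lam) := by
    intro lam hlam
    have hlam' : (0 : ℝ) < lam := hlam
    rw [DD_eq hp hp2 ha f hlam', ENNReal.mul_rpow_of_nonneg _ _ hr0.le]
    have h2 := jensen hr (fun j => ENNReal.ofReal (a j ^ p)) (fun j => AA p a f j lam)
    have h3 : (∑' j, AA p a f j lam) ^ (r - 1) ≤ (ENNReal.ofReal (C3 p) * F) ^ (r - 1) :=
      ENNReal.rpow_le_rpow (AA_sum hp hp2 ha hanti hf hlam') (by linarith)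
    have h4 : ∑' j, AA p a f j lam * ENNReal.ofReal (a j ^ p) ^ r =
        ∑' j, ENNReal.ofReal (a j) ^ q * AA p a f j lam := by
      refine tsum_congr fun j => ?_
      rw [hpow j, mul_comm]
    have h5 : ENNReal.ofReal (p * lam ^ (q - 1)) * ENNReal.ofReal (C1 p * lam ^ (-p)) ^ r =
        ENNReal.ofReal (p * C1 p ^ r) * ENNReal.ofReal lam⁻¹ := by
      rw [ENNReal.ofReal_rpow_of_nonneg (by positivity) hr0.le, ← ENNReal.ofReal_mul (by positivity),
        ← ENNReal.ofReal_mul (by positivity)]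
      congr 1
      rw [Real.mul_rpow hC1' (by positivity), ← Real.rpow_mul hlam'.le]
      have h6 : -p * r = -q := by rw [hrdef]; field_simp
      rw [h6, Real.rpow_sub hlam', Real.rpow_one, Real.rpow_neg hlam'.le]
      have : 0 < lam ^ q := by positivity
      field_simp
    calc _ ≤ ENNReal.ofReal (p * lam ^ (q - 1)) * (ENNReal.ofReal (C1 p * lam ^ (-p)) ^ r *
          ((ENNReal.ofReal (C3 p) * F) ^ (r - 1) *
            ∑' j, ENNReal.ofReal (a j) ^ q * AA p a f j lam)) := by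
          refine mul_le_mul' le_rfl (mul_le_mul' le_rfl (h2.trans ?_))
          rw [h4]
          exact mul_le_mul' h3 le_rfl
      _ = (ENNReal.ofReal (p * lam ^ (q - 1)) * ENNReal.ofReal (C1 p * lam ^ (-p)) ^ r) *
          ((ENNReal.ofReal (C3 p) * F) ^ (r - 1) *
            ∑' j, ENNReal.ofReal (a j) ^ q * AA p a f j lam) := by rw [mul_assoc]
      _ = (ENNReal.ofReal (p * C1 p ^ r) * (ENNReal.ofReal (C3 p) * F) ^ (r - 1)) *
          (ENNReal.ofReal lam⁻¹ * ∑' j, ENNReal.ofReal (a j) ^ q * AA p a f j lam) := by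
          rw [h5]; ring
      _ = _ := by
          rw [← ENNReal.tsum_mul_left]
          congr 1
          refine tsum_congr fun j => ?_
          ring
  have hFt : (ENNReal.ofReal (C3 p) * F) ^ (r - 1) ≠ ∞ :=
    ENNReal.rpow_ne_top_of_nonneg (by linarith) (ENNReal.mul_ne_top ENNReal.ofReal_ne_top hfin)
  have h6 : ∫⁻ lam in Ioi (0 : ℝ), ENNReal.ofReal (p * lam ^ (q - 1)) * DD p a f lam ^ r ≤
      (ENNReal.ofReal (p * C1 p ^ r * C3 p ^ (r - 1) * C4 p) *
        ∑' j, ENNReal.ofReal (a j) ^ q) * F ^ r := by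
    calc _ ≤ ∫⁻ lam in Ioi (0 : ℝ),
          ENNReal.ofReal (p * C1 p ^ r) * (ENNReal.ofReal (C3 p) * F) ^ (r - 1) *
          ∑' j, ENNReal.ofReal (a j) ^ q * (ENNReal.ofReal lam⁻¹ * AA p a f j lam) :=
          setLIntegral_mono' measurableSet_Ioi h1
      _ = ENNReal.ofReal (p * C1 p ^ r) * (ENNReal.ofReal (C3 p) * F) ^ (r - 1) *
          ∑' j, ENNReal.ofReal (a j) ^ q *
            ∫⁻ lam in Ioi (0 : ℝ), ENNReal.ofReal lam⁻¹ * AA p a f j lam := by
          rw [lintegral_const_mul' _ _ (ENNReal.mul_ne_top ENNReal.ofReal_ne_top hFt),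
            lintegral_tsum]
          · congr 1
            refine tsum_congr fun j => ?_
            rw [lintegral_const_mul' _ _ (ENNReal.rpow_ne_top_of_nonneg hq0.le
              ENNReal.ofReal_ne_top)]
          · intro j
            refine Measurable.aemeasurable ?_
            refine Measurable.const_mul ?_ _
            exact (ENNReal.measurable_ofReal.comp measurable_inv).mul (AA_meas p a hf j)
      _ ≤ ENNReal.ofReal (p * C1 p ^ r) * (ENNReal.ofReal (C3 p) * F) ^ (r - 1) *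
          ∑' j, ENNReal.ofReal (a j) ^ q * (ENNReal.ofReal (C4 p) * F) := by
          refine mul_le_mul' le_rfl (ENNReal.tsum_le_tsum fun j => ?_)
          exact mul_le_mul' le_rfl (AA_int hp hp2 ha hf j)
      _ = _ := by
          rw [ENNReal.tsum_mul_right, ENNReal.mul_rpow_of_nonneg _ _ (by linarith : 0 ≤ r - 1),
            ENNReal.ofReal_rpow_of_nonneg hC3.le (by linarith)]
          have h7 : F ^ r = F ^ (r - 1) * F := by
            nth_rewrite 3 [← ENNReal.rpow_one F]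
            rw [← ENNReal.rpow_add_of_nonneg _ _ (by linarith) zero_le_one]
            congr 1; ring
          rw [h7, ENNReal.ofReal_mul (p := p * C1 p ^ r * C3 p ^ (r - 1)) (by positivity),
            ENNReal.ofReal_mul (p := p * C1 p ^ r) (by positivity)]
          ring
  refine h0.trans ((ENNReal.rpow_le_rpow h6 (by positivity)).trans (le_of_eq ?_))
  rw [ENNReal.mul_rpow_of_nonneg _ _ (by positivity)]
  congr 1
  rw [hF, lint_eq hp0, ← ENNReal.rpow_mul, ← ENNReal.rpow_mul]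
  have : p * (r * (1 / q)) = 1 := by rw [hrdef]; field_simp
  rw [this, ENNReal.rpow_one]

lemma rearr_anti (g : (Fin n → ℝ) → ℂ) {s t : ℝ} (h : s ≤ t) : rearr g t ≤ rearr g s := by
  unfold rearr
  apply sInf_le_sInf
  intro u hu
  exact le_trans hu (ENNReal.ofReal_le_ofReal h)

/-- The weak norm is controlled by every Lorentz norm. -/
lemma weak_le {p s : ℝ} (hp : 0 < p) (hs : 0 < s) (g : (Fin n → ℝ) → ℂ) :
    weakNorm p g ≤ ENNReal.ofReal ((s / p) ^ (1 / s)) * lorentzNorm p s g := by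
  have hsp : 0 < s / p := by positivity
  unfold weakNorm
  refine iSup₂_le fun t ht => ?_
  have h1 : ENNReal.ofReal (s / p) * (∫⁻ u in Ioi (0 : ℝ),
      (ENNReal.ofReal (u ^ (1 / p)) * rearr g u) ^ s * ENNReal.ofReal (1 / u)) ≥
      (ENNReal.ofReal (t ^ (1 / p)) * rearr g t) ^ s := by
    have h2 := layer_fin (b := t) (r := s / p) ht.le hsp
    have h3 : (ENNReal.ofReal (t ^ (1 / p)) * rearr g t) ^ s =
        ENNReal.ofReal (t ^ (s / p)) * rearr g t ^ s := by
      rw [ENNReal.mul_rpow_of_nonneg _ _ hs.le, ENNReal.ofReal_rpow_of_nonneg (by positivity) hs.le,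
        ← Real.rpow_mul ht.le]
      congr 3
      ring
    rw [ge_iff_le, h3, ← h2, mul_comm, ← lintegral_const_mul' _ _ ENNReal.ofReal_ne_top]
    by_cases hR : rearr g t ^ s = ∞
    · have h4 : ∀ u ∈ Ioi (0 : ℝ), u < t → rearr g u ^ s = ∞ := by
        intro u _ hut
        rw [← top_le_iff, ← hR]
        exact ENNReal.rpow_le_rpow (rearr_anti g hut.le) hs.le
      have h5 : ∫⁻ u in Ioi (0 : ℝ), ENNReal.ofReal (s / p) *
          ((ENNReal.ofReal (u ^ (1 / p)) * rearr g u) ^ s * ENNReal.ofReal (1 / u)) = ∞ := by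
        rw [← top_le_iff]
        calc (∞ : ℝ≥0∞) = ∫⁻ _ in Ioo (0 : ℝ) t, ∞ := by
              rw [setLIntegral_const, Real.volume_Ioo, sub_zero, ENNReal.top_mul]
              simpa using ht
          _ ≤ ∫⁻ u in Ioo (0 : ℝ) t, ENNReal.ofReal (s / p) *
              ((ENNReal.ofReal (u ^ (1 / p)) * rearr g u) ^ s * ENNReal.ofReal (1 / u)) := by
              refine setLIntegral_mono' measurableSet_Ioo fun u hu => ?_
              have hu0 : 0 < u := hu.1
              rw [ENNReal.mul_rpow_of_nonneg _ _ hs.le, h4 u hu.1 hu.2,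
                ENNReal.mul_top, ENNReal.top_mul, ENNReal.mul_top]
              · simpa using hsp
              · simpa using hu0
              · have : 0 < u ^ (1 / p) := by positivity
                rw [ne_eq, ENNReal.rpow_eq_zero_iff]
                push Not
                constructor
                · intro h6
                  rw [ENNReal.ofReal_eq_zero] at h6
                  linarith
                · intro h6
                  exact absurd h6 ENNReal.ofReal_ne_top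
          _ ≤ _ := lintegral_mono_set Ioo_subset_Ioi_self
      rw [h5]
      exact le_top
    · rw [← lintegral_const_mul' _ _ hR]
      refine setLIntegral_mono' measurableSet_Ioi fun u hu => ?_
      have hu0 : (0 : ℝ) < u := hu
      by_cases hut : u < t
      · rw [if_pos hut]
        have h6 : rearr g t ^ s ≤ rearr g u ^ s := ENNReal.rpow_le_rpow (rearr_anti g hut.le) hs.le
        have h7 : ENNReal.ofReal (s / p) *
            ((ENNReal.ofReal (u ^ (1 / p)) * rearr g u) ^ s * ENNReal.ofReal (1 / u)) =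
            rearr g u ^ s * ENNReal.ofReal (s / p * u ^ (s / p - 1)) := by
          rw [ENNReal.mul_rpow_of_nonneg _ _ hs.le,
            ENNReal.ofReal_rpow_of_nonneg (by positivity) hs.le, ← Real.rpow_mul hu0.le]
          have h8 : ENNReal.ofReal (s / p * u ^ (s / p - 1)) =
              ENNReal.ofReal (s / p) * (ENNReal.ofReal (u ^ (1 / p * s)) *
                ENNReal.ofReal (1 / u)) := by
            rw [← ENNReal.ofReal_mul (by positivity), ← ENNReal.ofReal_mul (by positivity)]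
            congr 1
            rw [Real.rpow_sub hu0, Real.rpow_one, show 1 / p * s = s / p by ring]
            ring
          rw [h8]
          ring
        rw [h7]
        exact mul_le_mul' h6 le_rfl
      · rw [if_neg hut, mul_zero]
        exact zero_le
  have h9 := ENNReal.rpow_le_rpow h1 (show 0 ≤ 1 / s by positivity)
  rw [← ENNReal.rpow_mul, mul_one_div_cancel hs.ne', ENNReal.rpow_one,
    ENNReal.mul_rpow_of_nonneg _ _ (by positivity), ENNReal.ofReal_rpow_of_nonneg hsp.le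
      (by positivity)] at h9
  exact h9

end Pool.Agent.Y858.RV
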