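import Mathlib

set_option autoImplicit false

/-!
# Decreasing sequences with a prescribed summability threshold
-/

open scoped ENNReal NNReal

namespace Pool.Agent.Y858.RV

/-- `w m = 2^(-i) / (i+1)^2`, `i = ⌊log₂ m⌋` -/
noncomputable def ws (m : ℕ) : ℝ := (1 / 2) ^ (Nat.log 2 m) / ((Nat.log 2 m : ℝ) + 1) ^ 2

lemma ws_pos (m : ℕ) : 0 < ws m := by unfold ws; positivity

lemma ws_anti : Antitone ws := by
  intro m k h
  have h1 := Nat.log_mono_right (b := 2) h
  have h2 : (Nat.log 2 m : ℝ) ≤ Nat.log 2 k := by exact_mod_cast h1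
  unfold ws
  refine div_le_div₀ (by positivity) ?_ (by positivity) ?_
  · exact pow_le_pow_of_le_one (by norm_num) (by norm_num) h1
  · gcongr

lemma ws_le_one (m : ℕ) : ws m ≤ 1 := by
  have h := ws_anti (Nat.zero_le m)
  have h0 : ws 0 = 1 := by unfold ws; simp
  rw [h0] at h
  exact h

lemma ws_pow (k : ℕ) : ws (2 ^ k) = (1 / 2) ^ k / ((k : ℝ) + 1) ^ 2 := by
  unfold ws
  rw [Nat.log_pow (by norm_num)]

lemma ws_summable : Summable ws := by
  rw [← summable_condensed_iff_of_nonneg (fun m => (ws_pos m).le) (fun m k _ h => ws_anti h)]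
  have h : (fun k : ℕ => (2 : ℝ) ^ k * ws (2 ^ k)) = fun k : ℕ => 1 / (((k + 1 : ℕ) : ℝ)) ^ 2 := by
    ext k
    rw [ws_pow, one_div_pow]
    push_cast
    have : (2 : ℝ) ^ k ≠ 0 := by positivity
    field_simp
  rw [h]
  exact (summable_nat_add_iff 1).2 (Real.summable_one_div_nat_pow.2 (by norm_num))

lemma ws_not_summable {θ : ℝ} (h0 : 0 < θ) (h1 : θ < 1) : ¬ Summable fun m => ws m ^ θ := by
  intro h
  rw [← summable_condensed_iff_of_nonneg (fun m => (Real.rpow_pos_of_pos (ws_pos m) θ).le)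
    (fun m k _ h => Real.rpow_le_rpow (ws_pos k).le (ws_anti h) h0.le)] at h
  have h2 := h.tendsto_atTop_zero
  have hr : 1 < (2 : ℝ) ^ (1 - θ) := Real.one_lt_rpow (by norm_num) (by linarith)
  have h3 := tendsto_pow_const_div_const_pow_of_one_lt 2 hr
  have h4 : ∀ᶠ k : ℕ in Filter.atTop, (k : ℝ) ^ 2 / ((2 : ℝ) ^ (1 - θ)) ^ k < 1 / 4 :=
    h3.eventually (gt_mem_nhds (by norm_num))
  have h5 : ∀ᶠ k : ℕ in Filter.atTop, (2 : ℝ) ^ k * ws (2 ^ k) ^ θ < 1 :=
    h2.eventually (gt_mem_nhds (by norm_num))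
  obtain ⟨k, hk4, hk5, hk1⟩ := (h4.and (h5.and (Filter.eventually_ge_atTop 1))).exists
  have hk1' : (1 : ℝ) ≤ k := by exact_mod_cast hk1
  rw [ws_pow] at hk5
  have e1 : (2 : ℝ) ^ k * ((1 / 2) ^ k / ((k : ℝ) + 1) ^ 2) ^ θ =
      ((2 : ℝ) ^ (1 - θ)) ^ k / (((k : ℝ) + 1) ^ 2) ^ θ := by
    rw [Real.div_rpow (by positivity) (by positivity), ← Real.rpow_natCast (1 / 2) k,
      ← Real.rpow_natCast 2 k, ← Real.rpow_natCast ((2 : ℝ) ^ (1 - θ)) k,
      one_div, Real.inv_rpow (by norm_num), ← Real.rpow_neg (by norm_num),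
      ← Real.rpow_mul (by norm_num), ← Real.rpow_mul (by norm_num), ← mul_div_assoc,
      ← Real.rpow_add (by norm_num)]
    congr 2
    ring
  rw [e1, div_lt_one (by positivity)] at hk5
  have e2 : (((k : ℝ) + 1) ^ 2) ^ θ ≤ ((k : ℝ) + 1) ^ 2 := by
    nth_rewrite 2 [← Real.rpow_one (((k : ℝ) + 1) ^ 2)]
    apply Real.rpow_le_rpow_of_exponent_le _ h1.le
    nlinarith
  rw [div_lt_iff₀ (by positivity)] at hk4
  nlinarith

lemma ofReal_tsum_top {u : ℕ → ℝ} (h0 : ∀ j, 0 ≤ u j) (h : ¬ Summable u) :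
    ∑' j, ENNReal.ofReal (u j) = ∞ := by
  by_contra hne
  apply h
  have := ENNReal.summable_toReal hne
  refine this.congr fun j => ?_
  rw [ENNReal.toReal_ofReal (h0 j)]

lemma ofReal_tsum_ne {u : ℕ → ℝ} (h : Summable u) :
    ∑' j, ENNReal.ofReal (u j) ≠ ∞ := h.tsum_ofReal_ne_top

/-- The threshold `q` with summability at `q`. -/
theorem seq_closed {q : ℝ} (hq : 0 < q) : ∃ a : ℕ → ℝ, (∀ j, 0 < a j) ∧ (∀ j, a j ≤ 1) ∧
    Antitone a ∧ ∑' j, ENNReal.ofReal (a j) ^ q ≠ ∞ ∧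
    ∀ s, 0 < s → s < q → ∑' j, ENNReal.ofReal (a j) ^ s = ∞ := by
  refine ⟨fun j => ws (j + 1) ^ (1 / q), fun j => Real.rpow_pos_of_pos (ws_pos _) _,
    fun j => Real.rpow_le_one (ws_pos _).le (ws_le_one _) (by positivity), ?_, ?_, ?_⟩
  · intro i j h
    exact Real.rpow_le_rpow (ws_pos _).le (ws_anti (by omega)) (by positivity)
  · have : ∀ j, ENNReal.ofReal (ws (j + 1) ^ (1 / q)) ^ q = ENNReal.ofReal (ws (j + 1)) := by
      intro j
      rw [ENNReal.ofReal_rpow_of_nonneg (by have := ws_pos (j + 1); positivity) hq.le,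
        ← Real.rpow_mul (ws_pos _).le, one_div_mul_cancel hq.ne', Real.rpow_one]
    simp_rw [this]
    exact ofReal_tsum_ne ((summable_nat_add_iff 1).2 ws_summable)
  · intro s hs hsq
    have : ∀ j, ENNReal.ofReal (ws (j + 1) ^ (1 / q)) ^ s = ENNReal.ofReal (ws (j + 1) ^ (s / q)) := by
      intro j
      rw [ENNReal.ofReal_rpow_of_nonneg (by have := ws_pos (j + 1); positivity) hs.le,
        ← Real.rpow_mul (ws_pos _).le]
      congr 2
      ring
    simp_rw [this]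
    apply ofReal_tsum_top (fun j => by have := ws_pos (j + 1); positivity)
    intro h
    exact ws_not_summable (div_pos hs hq) (by rw [div_lt_one hq]; exact hsq)
      ((summable_nat_add_iff (f := fun m => ws m ^ (s / q)) 1).1 h)

/-- The threshold `q` without summability at `q`. -/
theorem seq_open {q : ℝ} (hq : 0 < q) : ∃ a : ℕ → ℝ, (∀ j, 0 < a j) ∧ (∀ j, a j ≤ 1) ∧
    Antitone a ∧ (∀ s, q < s → ∑' j, ENNReal.ofReal (a j) ^ s ≠ ∞) ∧
    ∀ s, 0 < s → s ≤ q → ∑' j, ENNReal.ofReal (a j) ^ s = ∞ := by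
  have hpow : ∀ s : ℝ, 0 < s → ∀ j : ℕ, ENNReal.ofReal (((j : ℝ) + 1) ^ (-(1 / q))) ^ s =
      ENNReal.ofReal (1 / ((j + 1 : ℕ) : ℝ) ^ (s / q)) := by
    intro s hs j
    rw [ENNReal.ofReal_rpow_of_nonneg (by positivity) hs.le, ← Real.rpow_mul (by positivity)]
    congr 1
    rw [show -(1 / q) * s = -(s / q) by ring, Real.rpow_neg (by positivity), one_div]
    push_cast
    rfl
  refine ⟨fun j => ((j : ℝ) + 1) ^ (-(1 / q)), fun j => by positivity, ?_, ?_, ?_, ?_⟩
  · intro j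
    apply Real.rpow_le_one_of_one_le_of_nonpos
    · have : (0 : ℝ) ≤ j := Nat.cast_nonneg j
      linarith
    · have : 0 < 1 / q := by positivity
      linarith
  · intro i j h
    apply Real.rpow_le_rpow_of_nonpos (by positivity)
    · have : (i : ℝ) ≤ j := by exact_mod_cast h
      linarith
    · have : 0 < 1 / q := by positivity
      linarith
  · intro s hs
    simp_rw [hpow s (by linarith)]
    apply ofReal_tsum_ne
    apply (summable_nat_add_iff (f := fun m : ℕ => 1 / (m : ℝ) ^ (s / q)) 1).2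
    rw [Real.summable_one_div_nat_rpow, one_lt_div hq]
    exact hs
  · intro s hs hsq
    simp_rw [hpow s hs]
    apply ofReal_tsum_top (fun j => by positivity)
    intro h
    have h1 := (summable_nat_add_iff (f := fun m : ℕ => 1 / (m : ℝ) ^ (s / q)) 1).1 h
    rw [Real.summable_one_div_nat_rpow, one_lt_div hq] at h1
    linarith

end Pool.Agent.Y858.RV
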