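import Mathlib
import Pool.Agent.Y858.RV.D
import Pool.Agent.Y858.RV.Seq

set_option autoImplicit false

/-!
# Translation invariant operators from `L^p` to `L^{p,q}`: all second indices are different

The notions (`rearr`, `weakNorm`, `lorentzNorm`, `LpR`, `Op`, `TranslationInvariant`,
`BoundedInto`) are those of the file `RiviereFalse`.
-/

open MeasureTheory
open scoped ENNReal NNReal

namespace Pool.Agent.Y858.RV.Main

open Pool.Agent.Results.MP_f2c8fe_an.RiviereFalse Pool.Agent.Y858.RV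

/-- The Lorentz quasi-norm of `L^{p,q}` for a second index `q` in `(0,∞]`: the integral
`(∫_0^∞ (t^(1/p) g^*(t))^q dt/t)^(1/q)` if `q` is finite and `sup_t t^(1/p) g^*(t)` if `q = ∞`. -/
noncomputable def lor {n : ℕ} (p : ℝ) (q : ℝ≥0∞) (g : (Fin n → ℝ) → ℂ) : ℝ≥0∞ :=
  if q = ∞ then weakNorm p g else lorentzNorm p q.toReal g

/-- The indicator function of the unit cube `[0,1)^n`, as an element of `L^p(R^n)`. -/
noncomputable def cubeLp (n : ℕ) (p : ℝ) : LpR n p :=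
  indicatorConstLp (ENNReal.ofReal p) (s := {x : Fin n → ℝ | ∀ i, x i ∈ Set.Ico (0 : ℝ) 1})
    (cube_meas (n := n)) (by
      have h : volume {x : Fin n → ℝ | ∀ i, x i ∈ Set.Ico (0 : ℝ) 1} = 1 := cube_vol
      rw [h]; simp) 1

lemma cubeLp_coe (n : ℕ) (p : ℝ) : (cubeLp n p : (Fin n → ℝ) → ℂ) =ᵐ[volume] f0 n :=
  indicatorConstLp_coeFn

lemma lor_top {n : ℕ} (p : ℝ) (g : (Fin n → ℝ) → ℂ) : lor p ∞ g = weakNorm p g := by
  unfold lor
  rw [if_pos rfl]

lemma lor_ne {n : ℕ} (p : ℝ) {q : ℝ≥0∞} (hq : q ≠ ∞) (g : (Fin n → ℝ) → ℂ) :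
    lor p q g = lorentzNorm p q.toReal g := by
  unfold lor
  rw [if_neg hq]

lemma lorentz_congr {n : ℕ} {p q : ℝ} {f g : (Fin n → ℝ) → ℂ} (h : f =ᵐ[volume] g) :
    lorentzNorm p q f = lorentzNorm p q g := by
  unfold lorentzNorm
  congr 1
  refine lintegral_congr fun t => ?_
  rw [rearr_congr h]

lemma weak_congr {n : ℕ} {p : ℝ} {f g : (Fin n → ℝ) → ℂ} (h : f =ᵐ[volume] g) :
    weakNorm p f = weakNorm p g := by
  unfold weakNorm
  simp_rw [rearr_congr h]

/-- boundedness of `T_a` into `L^{p,q}`, finite `q` -/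
lemma bdd_fin {n : ℕ} {p q : ℝ} (hp : 1 < p) (hp2 : p < 2) (hpq : p ≤ q) {a : ℕ → ℝ}
    (ha : ∀ j, 0 < a j) (ha1 : ∀ j, a j ≤ 1) (hanti : Antitone a)
    (hsum : ∑' j, ENNReal.ofReal (a j) ^ q ≠ ∞) (i₀ : Fin n) :
    BoundedInto (opA hp hp2 (fun j => (ha j).le) ha1 i₀) (lorentzNorm p q) := by
  have hp0 : 0 < p := by linarith
  have hq0 : 0 < q := by linarith
  set C : ℝ≥0∞ := (ENNReal.ofReal (p * C1 p ^ (q / p) * C3 p ^ (q / p - 1) * C4 p) *
        ∑' j, ENNReal.ofReal (a j) ^ q) ^ (1 / q) with hC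
  have hCt : C ≠ ∞ := by
    rw [hC]
    exact ENNReal.rpow_ne_top_of_nonneg (by positivity)
      (ENNReal.mul_ne_top ENNReal.ofReal_ne_top hsum)
  refine ⟨C.toNNReal, fun f => ?_⟩
  rw [ENNReal.coe_toNNReal hCt, lorentz_congr (opA_coe hp hp2 (fun j => (ha j).le) ha1 i₀ f)]
  exact lorentz_bound hp hp2 hpq ha ha1 hanti i₀ (Lp_meas f) (Lp_fin hp0 f)

/-- boundedness into weak `L^p` from boundedness into a Lorentz space -/
lemma bdd_weak {n : ℕ} {p s : ℝ} (hp : 0 < p) (hs : 0 < s) {T : Op n p}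
    (h : BoundedInto T (lorentzNorm p s)) : BoundedInto T (weakNorm p) := by
  obtain ⟨C, hC⟩ := h
  refine ⟨(ENNReal.ofReal ((s / p) ^ (1 / s))).toNNReal * C, fun f => ?_⟩
  refine (weak_le hp hs _).trans ?_
  push_cast
  rw [ENNReal.coe_toNNReal ENNReal.ofReal_ne_top, mul_assoc]
  exact mul_le_mul' le_rfl (hC f)

/-- the lower bound for the cube -/
lemma cube_top {n : ℕ} {p s : ℝ} (hp : 1 < p) (hp2 : p < 2) (hs : 0 < s) {a : ℕ → ℝ}
    (ha : ∀ j, 0 < a j) (ha1 : ∀ j, a j ≤ 1)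
    (hsum : ∑' j, ENNReal.ofReal (a j) ^ s = ∞) (i₀ : Fin n) :
    lorentzNorm p s (opA hp hp2 (fun j => (ha j).le) ha1 i₀ (cubeLp n p)) = ∞ := by
  rw [lorentz_congr ((opA_coe hp hp2 (fun j => (ha j).le) ha1 i₀ _).trans
    (opa_congr p a i₀ (cubeLp_coe n p)))]
  exact lorentz_top' hp hs (fun j => (ha j).le) hsum i₀

/-- **The second index of the target is sharp, in every dimension and for every `1 < p < 2`.**
(1) for every `q ∈ [p,∞]` a translation invariant operator is bounded from `L^p` to `L^{p,q}` but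
maps the indicator function of the unit cube outside of every `L^{p,s}` with `s < q`;
(2) for every `q ∈ [p,∞)` one is bounded from `L^p` to `L^{p,s}` for every `s > q` but maps the
indicator function of the unit cube outside of `L^{p,q}`;
(3) hence for `q₁ < q₂`, `p ≤ q₂ ≤ ∞`, some translation invariant operator is bounded from `L^p`
to `L^{p,q₂}` and not from `L^p` to `L^{p,q₁}`;
(4) in particular (`q₂ = ∞`, `q₁ = p'`) Rivière's question has a negative answer. -/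
theorem main : ∀ n : ℕ, 1 ≤ n → ∀ p : ℝ, 1 < p → p < 2 →
    (∀ q : ℝ≥0∞, ENNReal.ofReal p ≤ q → ∃ T : Op n p, TranslationInvariant T ∧
      BoundedInto T (lor p q) ∧
      ∀ s : ℝ≥0∞, 0 < s → s < q → lor p s (T (cubeLp n p)) = ∞) ∧
    (∀ q : ℝ≥0∞, ENNReal.ofReal p ≤ q → q < ∞ → ∃ T : Op n p, TranslationInvariant T ∧
      (∀ s : ℝ≥0∞, q < s → BoundedInto T (lor p s)) ∧
      ∀ s : ℝ≥0∞, 0 < s → s ≤ q → lor p s (T (cubeLp n p)) = ∞) ∧
    (∀ q₁ q₂ : ℝ≥0∞, 0 < q₁ → q₁ < q₂ → ENNReal.ofReal p ≤ q₂ → ∃ T : Op n p,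
      TranslationInvariant T ∧ BoundedInto T (lor p q₂) ∧ ¬ BoundedInto T (lor p q₁)) ∧
    ∃ T : Op n p, TranslationInvariant T ∧ BoundedInto T (weakNorm p) ∧
      ¬ BoundedInto T (lorentzNorm p (p / (p - 1))) := by
  intro n hn p hp hp2
  have hp0 : 0 < p := by linarith
  have i₀ : Fin n := ⟨0, hn⟩
  have h1 : ∀ q : ℝ≥0∞, ENNReal.ofReal p ≤ q → ∃ T : Op n p, TranslationInvariant T ∧
      BoundedInto T (lor p q) ∧
      ∀ s : ℝ≥0∞, 0 < s → s < q → lor p s (T (cubeLp n p)) = ∞ := by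
    intro q hpq
    by_cases hq : q = ∞
    · subst hq
      have hC : (0 : ℝ) ≤ CW p ^ (1 / p) := by
        have := CW_pos p
        positivity
      refine ⟨opL hp hp2 i₀, fun h f => opL_trans hp hp2 i₀ f h, ?_, ?_⟩
      · refine ⟨⟨CW p ^ (1 / p), hC⟩, fun f => ?_⟩
        rw [lor_top, weak_congr (opL_coe hp hp2 i₀ f)]
        refine (opT_weakNorm hp hp2 i₀ (Lp_meas f) (Lp_fin hp0 f)).trans (le_of_eq ?_)
        congr 1
        rw [ENNReal.ofReal_eq_coe_nnreal hC]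
        rfl
      · intro s hs hsq
        rw [lor_ne p hsq.ne, lorentz_congr ((opL_coe hp hp2 i₀ _).trans
          (opT_congr p i₀ (cubeLp_coe n p)))]
        exact lorentz_top hp (ENNReal.toReal_pos hs.ne' hsq.ne) i₀
    · have hpq' : p ≤ q.toReal := by
        rw [← ENNReal.ofReal_le_iff_le_toReal hq]; exact hpq
      obtain ⟨a, ha, ha1, hanti, hsum, hdiv⟩ := seq_closed (show 0 < q.toReal by linarith)
      refine ⟨opA hp hp2 (fun j => (ha j).le) ha1 i₀, opA_trans hp hp2 _ ha1 i₀, ?_, ?_⟩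
      · have h2 := bdd_fin hp hp2 hpq' ha ha1 hanti hsum i₀
        obtain ⟨C, hC⟩ := h2
        exact ⟨C, fun f => by rw [lor_ne p hq]; exact hC f⟩
      · intro s hs hsq
        have hs' : s ≠ ∞ := (hsq.trans_le le_top).ne
        rw [lor_ne p hs']
        have hst : 0 < s.toReal := ENNReal.toReal_pos hs.ne' hs'
        exact cube_top hp hp2 hst ha ha1
          (hdiv s.toReal hst ((ENNReal.toReal_lt_toReal hs' hq).2 hsq)) i₀
  have h3 : ∀ q₁ q₂ : ℝ≥0∞, 0 < q₁ → q₁ < q₂ → ENNReal.ofReal p ≤ q₂ → ∃ T : Op n p,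
      TranslationInvariant T ∧ BoundedInto T (lor p q₂) ∧ ¬ BoundedInto T (lor p q₁) := by
    intro q₁ q₂ hq1 hq12 hpq
    obtain ⟨T, hT1, hT2, hT3⟩ := h1 q₂ hpq
    refine ⟨T, hT1, hT2, ?_⟩
    rintro ⟨C, hC⟩
    have h4 := hC (cubeLp n p)
    rw [hT3 q₁ hq1 hq12, top_le_iff] at h4
    exact ENNReal.mul_ne_top ENNReal.coe_ne_top (Lp.eLpNorm_ne_top _) h4
  refine ⟨h1, ?_, h3, ?_⟩
  · intro q hpq hq
    have hpq' : p ≤ q.toReal := by
      rw [← ENNReal.ofReal_le_iff_le_toReal hq.ne]; exact hpq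
    have hq0 : 0 < q.toReal := by linarith
    obtain ⟨a, ha, ha1, hanti, hsum, hdiv⟩ := seq_open hq0
    refine ⟨opA hp hp2 (fun j => (ha j).le) ha1 i₀, opA_trans hp hp2 _ ha1 i₀, ?_, ?_⟩
    · intro s hs
      by_cases hst : s = ∞
      · subst hst
        have h2 := bdd_fin hp hp2 (show p ≤ q.toReal + 1 by linarith) ha ha1 hanti
          (hsum _ (by linarith)) i₀
        obtain ⟨C, hC⟩ := bdd_weak hp0 (show 0 < q.toReal + 1 by linarith) h2
        exact ⟨C, fun f => by rw [lor_top]; exact hC f⟩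
      · have hlt : q.toReal < s.toReal := (ENNReal.toReal_lt_toReal hq.ne hst).2 hs
        obtain ⟨C, hC⟩ := bdd_fin hp hp2 (show p ≤ s.toReal by linarith) ha ha1 hanti
          (hsum _ hlt) i₀
        exact ⟨C, fun f => by rw [lor_ne p hst]; exact hC f⟩
    · intro s hs hsq
      have hst : s ≠ ∞ := (hsq.trans_lt hq).ne
      rw [lor_ne p hst]
      exact cube_top hp hp2 (ENNReal.toReal_pos hs.ne' hst) ha ha1
        (hdiv _ (ENNReal.toReal_pos hs.ne' hst) (ENNReal.toReal_mono hq.ne hsq)) i₀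
  · have hpp : 0 < p / (p - 1) := div_pos hp0 (by linarith)
    obtain ⟨T, hT1, ⟨C, hC⟩, hT3⟩ := h3 (ENNReal.ofReal (p / (p - 1))) ∞
      (ENNReal.ofReal_pos.2 hpp) ENNReal.ofReal_lt_top le_top
    refine ⟨T, hT1, ⟨C, fun f => ?_⟩, ?_⟩
    · have := hC f
      rwa [lor_top] at this
    · rintro ⟨C', hC'⟩
      apply hT3
      refine ⟨C', fun f => ?_⟩
      rw [lor_ne p ENNReal.ofReal_ne_top, ENNReal.toReal_ofReal hpp.le]
      exact hC' f

end Pool.Agent.Y858.RV.Main
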